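import Pool.Agent.Gabow87.R.Long
import Pool.Agent.Gabow87.Order
import Pool.Agent.Gabow87.Main6
import Pool.Agent.Near48.Blocks

/-!
# From orderings with good levels to chains and back
-/

set_option autoImplicit false

namespace Pool.Agent.Gab7c_h87

open Pool.Agent.Gabow87

theorem list_nodup_of_card {α : Type*} [DecidableEq α] (l : List α)
    (h : l.length ≤ l.toFinset.card) : l.Nodup := by
  rw [← Multiset.coe_nodup, ← Multiset.toFinset_card_eq_card_iff_nodup]
  refine le_antisymm ?_ ?_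
  · exact Multiset.toFinset_card_le _
  · simpa using h

theorem getD_inj {α : Type*} (l : List α) (d : α) (h : l.Nodup) (i j : ℕ) (hi : i < l.length)
    (hj : j < l.length) (hij : l.getD i d = l.getD j d) : i = j := by
  rw [List.getD_eq_getElem _ _ hi, List.getD_eq_getElem _ _ hj] at hij
  exact (List.Nodup.getElem_inj_iff h).mp hij

theorem gch_card {α : Type*} [DecidableEq α] {P : Finset α → Prop} {B B' : Finset α} :
    ∀ (n : ℕ) (X V : Finset α), GCh P B B' n X V → X.card = n ∧ V.card = n := by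
  intro n
  induction n with
  | zero => rintro X V ⟨rfl, rfl⟩; simp
  | succ n ih =>
    rintro X V ⟨-, x, hx, v, hv, h⟩
    obtain ⟨h1, h2⟩ := ih _ _ h
    rw [Finset.card_erase_of_mem hx] at h1
    rw [Finset.card_erase_of_mem hv] at h2
    have := Finset.card_pos.mpr ⟨x, hx⟩
    have := Finset.card_pos.mpr ⟨v, hv⟩
    omega

theorem gch_one {α : Type*} [DecidableEq α] {P : Finset α → Prop} {B B' : Finset α} {x y : α}
    (h : Good P B B' {x} {y}) : GCh P B B' 1 {x} {y} :=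
  ⟨h, x, by simp, y, by simp, by simp, by simp⟩

theorem gch_two {α : Type*} [DecidableEq α] {P : Finset α → Prop} {B B' : Finset α}
    {x₁ x₂ y₁ y₂ : α} (hx : x₁ ≠ x₂) (hy : y₁ ≠ y₂) (h : Good P B B' {x₁} {y₁})
    (h' : Good P B B' {x₁, x₂} {y₁, y₂}) : GCh P B B' 2 {x₁, x₂} {y₁, y₂} := by
  refine ⟨h', x₂, by simp, y₂, by simp, ?_⟩
  rw [Finset.pair_comm, Finset.pair_comm y₁, Finset.erase_insert (by simpa using hx.symm),
    Finset.erase_insert (by simpa using hy.symm)]
  exact gch_one h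

section Conv

variable {α : Type*} {r : ℕ} {M : Matroid α} {b b' : Fin r → α}

/-- a set of `r` indices whose image is a basis -/
theorem bp_of_image (hb : Function.Injective b) (hB : M.IsBase (Set.range b))
    {S : Finset (Idx r)} (hS : S.card = r)
    (h : M.IsBase (Sum.elim b b' '' (S : Set (Idx r)))) : BP M (Sum.elim b b') S := by
  refine ⟨?_, h⟩
  have h1 := h.encard_eq_encard_of_isBase hB
  have h2 : (Set.range b).encard = r := by
    rw [← Set.image_univ, hb.encard_image, Set.encard_univ]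
    simp
  rw [h2] at h1
  refine Set.injOn_of_ncard_image_eq ?_ (Finset.finite_toSet S)
  rw [Set.ncard_coe_finset, hS, Set.ncard_def, h1]
  rfl

theorem card_firstL (σ : Equiv.Perm (Fin r)) {k : ℕ} (hk : k ≤ r) : (firstL σ k).card = k := by
  rw [firstL, Finset.card_map, Fin.card_filter_val_lt]
  omega

theorem card_firstR (σ : Equiv.Perm (Fin r)) {k : ℕ} (hk : k ≤ r) : (firstR σ k).card = k := by
  rw [firstR, Finset.card_map, Fin.card_filter_val_lt]
  omega

theorem firstL_sub (σ : Equiv.Perm (Fin r)) (k : ℕ) : firstL σ k ⊆ B₀ r := by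
  intro t ht
  obtain ⟨j, -, rfl⟩ := (mem_firstL _ _ _).mp ht
  exact (mem_B₀ _).mpr ⟨_, rfl⟩

theorem firstR_sub (σ : Equiv.Perm (Fin r)) (k : ℕ) : firstR σ k ⊆ B₁ r := by
  intro t ht
  obtain ⟨j, -, rfl⟩ := (mem_firstR _ _ _).mp ht
  exact (mem_B₁ _).mpr ⟨_, rfl⟩

/-- a block which starts in the first basis -/
theorem bp_lt (hb : Function.Injective b) (hB : M.IsBase (Set.range b))
    (σ σ' : Equiv.Perm (Fin r)) (i : Fin (r + r)) (hi : i.val < r)
    (h : M.IsBase (block (b ∘ σ) (b' ∘ σ') i)) :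
    BP M (Sum.elim b b') (B₀ r \ firstL σ i.val ∪ firstR σ' i.val) := by
  refine bp_of_image hb hB ?_ ?_
  · rw [Finset.card_union_of_disjoint, Finset.card_sdiff_of_subset (firstL_sub _ _),
      card_firstL _ hi.le, card_firstR _ hi.le, card_B₀]
    · omega
    · exact (disj_B r).mono Finset.sdiff_subset (firstR_sub _ _)
  · convert h using 1
    ext x
    rw [mem_block_lt _ _ _ hi]
    simp only [Set.mem_image, Finset.mem_coe, Finset.mem_union, Finset.mem_sdiff, mem_B₀,
      mem_firstL, mem_firstR]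
    constructor
    · rintro ⟨t, ⟨⟨j, rfl⟩, hj⟩ | ⟨j, hj, rfl⟩, rfl⟩
      · left
        refine ⟨σ.symm j, ?_, by simp⟩
        by_contra hlt
        exact hj ⟨σ.symm j, by omega, by simp⟩
      · right
        exact ⟨j, by omega, rfl⟩
    · rintro (⟨j, hj, rfl⟩ | ⟨j, hj, rfl⟩)
      · refine ⟨Sum.inl (σ j), Or.inl ⟨⟨_, rfl⟩, ?_⟩, rfl⟩
        rintro ⟨j', hj', h⟩
        have : j = j' := by simpa using h
        subst this; omega
      · exact ⟨Sum.inr (σ' j), Or.inr ⟨j, by omega, rfl⟩, rfl⟩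

/-- a block which starts in the second basis -/
theorem bp_ge (hb : Function.Injective b) (hB : M.IsBase (Set.range b))
    (σ σ' : Equiv.Perm (Fin r)) (i : Fin (r + r)) (hi : r ≤ i.val)
    (h : M.IsBase (block (b ∘ σ) (b' ∘ σ') i)) :
    BP M (Sum.elim b b') (B₁ r \ firstR σ' (i.val - r) ∪ firstL σ (i.val - r)) := by
  have hi2 := i.isLt
  refine bp_of_image hb hB ?_ ?_
  · rw [Finset.card_union_of_disjoint, Finset.card_sdiff_of_subset (firstR_sub _ _),
      card_firstL _ (by omega), card_firstR _ (by omega), card_B₁]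
    · omega
    · exact (disj_B r).symm.mono Finset.sdiff_subset (firstL_sub _ _)
  · convert h using 1
    ext x
    rw [mem_block_ge _ _ _ hi]
    simp only [Set.mem_image, Finset.mem_coe, Finset.mem_union, Finset.mem_sdiff, mem_B₁,
      mem_firstL, mem_firstR]
    constructor
    · rintro ⟨t, ⟨⟨j, rfl⟩, hj⟩ | ⟨j, hj, rfl⟩, rfl⟩
      · left
        refine ⟨σ'.symm j, ?_, by simp⟩
        by_contra hlt
        exact hj ⟨σ'.symm j, by omega, by simp⟩
      · right
        exact ⟨j, by omega, rfl⟩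
    · rintro (⟨j, hj, rfl⟩ | ⟨j, hj, rfl⟩)
      · refine ⟨Sum.inr (σ' j), Or.inl ⟨⟨_, rfl⟩, ?_⟩, rfl⟩
        rintro ⟨j', hj', h⟩
        have : j = j' := by simpa using h
        subst this; omega
      · exact ⟨Sum.inl (σ j), Or.inr ⟨j, by omega, rfl⟩, rfl⟩

end Conv

/-- names of the terms of the two bases -/
def nm {r : ℕ} (hr : 0 < r) (σ σ' : Equiv.Perm (Fin r)) (n : ℕ) : Idx r :=
  if n < r then Sum.inl (σ ⟨n % r, Nat.mod_lt _ hr⟩) else Sum.inr (σ' ⟨(n - r) % r, Nat.mod_lt _ hr⟩)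

theorem nm_left {r : ℕ} (hr : 0 < r) (σ σ' : Equiv.Perm (Fin r)) {n : ℕ} (hn : n < r) :
    nm hr σ σ' n = Sum.inl (σ ⟨n, hn⟩) := by
  have e : (⟨n % r, Nat.mod_lt _ hr⟩ : Fin r) = ⟨n, hn⟩ := Fin.ext (Nat.mod_eq_of_lt hn)
  rw [nm, if_pos hn, e]

theorem nm_right {r : ℕ} (hr : 0 < r) (σ σ' : Equiv.Perm (Fin r)) {n : ℕ} (hn : n < r) :
    nm hr σ σ' (r + n) = Sum.inr (σ' ⟨n, hn⟩) := by
  have e : (⟨(r + n - r) % r, Nat.mod_lt _ hr⟩ : Fin r) = ⟨n, hn⟩ :=
    Fin.ext (by change (r + n - r) % r = n; rw [Nat.add_sub_cancel_left, Nat.mod_eq_of_lt hn])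
  rw [nm, if_neg (by omega), e]

theorem nm_inj {r : ℕ} (hr : 0 < r) (σ σ' : Equiv.Perm (Fin r)) :
    ∀ i < 2 * r, ∀ j < 2 * r, nm hr σ σ' i = nm hr σ σ' j → i = j := by
  intro i hi j hj h
  rcases Nat.lt_or_ge i r with h1 | h1 <;> rcases Nat.lt_or_ge j r with h2 | h2
  · rw [nm_left hr σ σ' h1, nm_left hr σ σ' h2] at h
    simpa using h
  · obtain ⟨j, rfl⟩ := Nat.exists_eq_add_of_le h2
    rw [nm_left hr σ σ' h1, nm_right hr σ σ' (show j < r by omega)] at h
    simp at h
  · obtain ⟨i, rfl⟩ := Nat.exists_eq_add_of_le h1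
    rw [nm_left hr σ σ' h2, nm_right hr σ σ' (show i < r by omega)] at h
    simp at h
  · obtain ⟨i, rfl⟩ := Nat.exists_eq_add_of_le h1
    obtain ⟨j, rfl⟩ := Nat.exists_eq_add_of_le h2
    rw [nm_right hr σ σ' (show i < r by omega), nm_right hr σ σ' (show j < r by omega)] at h
    have : i = j := by simpa using h
    rw [this]

theorem image_nm_left {r : ℕ} (hr : 0 < r) (σ σ' : Equiv.Perm (Fin r)) {k : ℕ} (hk : k ≤ r) :
    (Finset.range k).image (nm hr σ σ') = firstL σ k := by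
  ext t
  rw [Finset.mem_image, mem_firstL]
  constructor
  · rintro ⟨n, hn, rfl⟩
    rw [Finset.mem_range] at hn
    exact ⟨⟨n, by omega⟩, hn, nm_left hr σ σ' (by omega)⟩
  · rintro ⟨j, hj, rfl⟩
    exact ⟨j.val, Finset.mem_range.mpr hj, nm_left hr σ σ' j.isLt⟩

theorem image_nm_right {r : ℕ} (hr : 0 < r) (σ σ' : Equiv.Perm (Fin r)) {k : ℕ} (hk : k ≤ r) :
    ((Finset.range k).image fun i => nm hr σ σ' (r + i)) = firstR σ' k := by
  ext t
  rw [Finset.mem_image, mem_firstR]
  constructor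
  · rintro ⟨n, hn, rfl⟩
    rw [Finset.mem_range] at hn
    exact ⟨⟨n, by omega⟩, hn, nm_right hr σ σ' (by omega)⟩
  · rintro ⟨j, hj, rfl⟩
    exact ⟨j.val, Finset.mem_range.mpr hj, nm_right hr σ σ' j.isLt⟩

theorem firstL_full {r : ℕ} (σ : Equiv.Perm (Fin r)) : firstL σ r = B₀ r := by
  refine Finset.eq_of_subset_of_card_le (firstL_sub _ _) ?_
  rw [card_B₀, card_firstL _ le_rfl]

theorem firstR_full {r : ℕ} (σ : Equiv.Perm (Fin r)) : firstR σ r = B₁ r := by
  refine Finset.eq_of_subset_of_card_le (firstR_sub _ _) ?_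
  rw [card_B₁, card_firstR _ le_rfl]

/-- Orderings with the blocks which start in the first basis, and those at the levels
`1, 2, r - 2, r - 1`. -/
theorem start {α : Type*} (M : Matroid α) {r : ℕ} (hr : 6 ≤ r) (b b' : Fin r → α)
    (hb : Function.Injective b) (hb' : Function.Injective b')
    (hB : M.IsBase (Set.range b)) (hB' : M.IsBase (Set.range b')) :
    ∃ σ σ' : Equiv.Perm (Fin r), ∀ i : Fin (r + r),
      (i.val ≤ r ∨ i.val % r = 0 ∨ i.val % r = 1 ∨ i.val % r = 2 ∨ i.val % r = r - 2 ∨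
        i.val % r = r - 1) → M.IsBase (block (b ∘ σ) (b' ∘ σ') i) := by
  obtain ⟨τ, τ', hτ⟩ := main6 M hr b b' hb hb' hB hB'
  have hb1 : Function.Injective (b ∘ τ) := hb.comp τ.injective
  have hB1 : M.IsBase (Set.range (b ∘ τ)) := by
    rw [τ.surjective.range_comp]
    exact hB
  have hB1' : M.IsBase (Set.range (b' ∘ τ')) := by
    rw [τ'.surjective.range_comp]
    exact hB'
  obtain ⟨σ, σ', h1, -, h3⟩ := Pool.Agent.Near48.near_refine M (b ∘ τ) (b' ∘ τ') hb1 hB1 hB1'
  refine ⟨τ * σ, τ' * σ', fun i hi => ?_⟩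
  rcases hi with hi | hi
  · exact h1 i hi
  · exact h3 (i.val % r) (fun j hj => hτ j (by rw [hj]; exact hi)) i rfl

section Tot

variable {α : Type*} [DecidableEq α]

/-- every set of at most two elements of the second basis is reached by a chain -/
theorem totV {P : Finset α → Prop} (hP : SymExch P) {B B' : Finset α} (hB : P B) (hB' : P B')
    (hd : Disjoint B B') (V : Finset α) (hV : V ⊆ B') (h3 : V.card ≤ 2) :
    ∃ X ⊆ B, ∃ m, GCh P B B' m X V := by
  rcases Nat.lt_or_ge V.card 1 with h | h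
  · have : V = ∅ := Finset.card_eq_zero.mp (by omega)
    subst this
    exact ⟨∅, Finset.empty_subset _, 0, rfl, rfl⟩
  rcases Nat.lt_or_ge V.card 2 with h2 | h2
  · obtain ⟨y, rfl⟩ := Finset.card_eq_one.mp (show V.card = 1 by omega)
    have hy : y ∈ B' := hV (Finset.mem_singleton_self _)
    have hyB : y ∉ B := fun h => Finset.disjoint_left.mp hd h hy
    obtain ⟨e, he, heB, h1, h4⟩ := hP B B' hB hB' y hy hyB
    refine ⟨{e}, Finset.singleton_subset_iff.mpr he, 1, gch_one ⟨?_, ?_⟩⟩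
    · rwa [Finset.sdiff_singleton_eq_erase, Finset.union_comm, ← Finset.insert_eq]
    · rwa [Finset.sdiff_singleton_eq_erase, Finset.union_comm, ← Finset.insert_eq]
  · obtain ⟨y₁, y₂, hy, rfl⟩ := Finset.card_eq_two.mp (show V.card = 2 by omega)
    obtain ⟨x, hx, e, he, hxe, hg, hs⟩ := pair_total hP hB hB' hd
      (hV (Finset.mem_insert_self _ _)) (hV (Finset.mem_insert_of_mem
        (Finset.mem_singleton_self _))) hy
    refine ⟨{x, e}, ?_, 2, ?_⟩
    · intro t ht
      rw [Finset.mem_insert, Finset.mem_singleton] at ht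
      rcases ht with rfl | rfl <;> assumption
    · rcases hs with hs | hs
      · exact gch_two hxe hy hs hg
      · rw [Finset.pair_comm y₁ y₂] at hg ⊢
        exact gch_two hxe hy.symm hs hg

/-- every set of at most two elements of the first basis is reached by a chain -/
theorem totX {P : Finset α → Prop} (hP : SymExch P) {B B' : Finset α} (hB : P B) (hB' : P B')
    (hd : Disjoint B B') (X : Finset α) (hX : X ⊆ B) (h3 : X.card ≤ 2) :
    ∃ V ⊆ B', ∃ m, GCh P B B' m X V := by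
  obtain ⟨V, hV, m, hm⟩ := totV hP hB' hB hd.symm X hX h3
  exact ⟨V, hV, m, GCh.symm _ _ _ hm⟩

end Tot

/-- orderings from two disjoint chains -/
theorem of_two {α : Type*} {M : Matroid α} {r k l : ℕ} (hr : k + l ≤ r) {b b' : Fin r → α}
    (hb : Function.Injective b) (hb' : Function.Injective b')
    (hB : M.IsBase (Set.range b)) (hB' : M.IsBase (Set.range b'))
    {X X' V V' : Finset (Idx r)} (hX : X ⊆ B₀ r) (hX' : X' ⊆ B₀ r) (hV : V ⊆ B₁ r)
    (hV' : V' ⊆ B₁ r) (hXX : Disjoint X X') (hVV : Disjoint V V')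
    (h : GCh (BP M (Sum.elim b b')) (B₀ r) (B₁ r) k X V)
    (h' : GCh (BP M (Sum.elim b b')) (B₀ r) (B₁ r) l X' V') :
    ∃ σ σ' : Equiv.Perm (Fin r), ∀ i : Fin (r + r), (i.val % r ≤ k ∨ r ≤ i.val % r + l) →
      M.IsBase (block (b ∘ σ) (b' ∘ σ') i) := by
  have hA := base_B₀ (b' := b') hb hB
  have hA' := base_B₁ (b := b) hb' hB'
  have h0 : Good (BP M (Sum.elim b b')) (B₀ r) (B₁ r) ∅ ∅ := by
    constructor
    · simpa using hA
    · simpa using hA'
  obtain ⟨x, y, hxi, hyi, hxX, hyV, hm⟩ := GCh.seq h0 k X V hX hV h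
  obtain ⟨x', y', hxi', hyi', hxX', hyV', hm'⟩ := GCh.seq h0 l X' V' hX' hV' h'
  have i1 : Function.Injective (Sum.elim x x') := by
    refine hxi.sumElim hxi' fun i j hij => ?_
    have h1 : (Sum.inl (x i) : Idx r) ∈ X := by
      rw [← hxX, mem_LX]
      exact ⟨i, i.isLt, rfl⟩
    have h2 : (Sum.inl (x' j) : Idx r) ∈ X' := by
      rw [← hxX', mem_LX]
      exact ⟨j, j.isLt, rfl⟩
    rw [hij] at h1
    exact Finset.disjoint_left.mp hXX h1 h2
  have i2 : Function.Injective (Sum.elim y y') := by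
    refine hyi.sumElim hyi' fun i j hij => ?_
    have h1 : (Sum.inr (y i) : Idx r) ∈ V := by
      rw [← hyV, mem_RY]
      exact ⟨i, i.isLt, rfl⟩
    have h2 : (Sum.inr (y' j) : Idx r) ∈ V' := by
      rw [← hyV', mem_RY]
      exact ⟨j, j.isLt, rfl⟩
    rw [hij] at h1
    exact Finset.disjoint_left.mp hVV h1 h2
  obtain ⟨σ, σ', -, -, hblocks⟩ := orderings_of_chains (k := k) (l := l) hr (M := M)
    (b := b) (b' := b') (x := Sum.elim x x') (y := Sum.elim y y') i1 i2
    (fun m hmk => hm m hmk) (fun m hmk _ => hm' m hmk)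
  exact ⟨σ, σ', hblocks⟩

/-- the orderings are refined such that all blocks starting in the first basis are bases -/
theorem refine_near {α : Type*} (M : Matroid α) {r : ℕ} (b b' : Fin r → α)
    (hb : Function.Injective b)
    (hB : M.IsBase (Set.range b)) (hB' : M.IsBase (Set.range b')) (Q : ℕ → Prop)
    (h : ∃ σ σ' : Equiv.Perm (Fin r), ∀ i : Fin (r + r), Q (i.val % r) →
      M.IsBase (block (b ∘ σ) (b' ∘ σ') i)) :
    ∃ σ σ' : Equiv.Perm (Fin r), ∀ i : Fin (r + r), (i.val ≤ r ∨ Q (i.val % r)) →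
      M.IsBase (block (b ∘ σ) (b' ∘ σ') i) := by
  obtain ⟨τ, τ', hτ⟩ := h
  have hb1 : Function.Injective (b ∘ τ) := hb.comp τ.injective
  have hB1 : M.IsBase (Set.range (b ∘ τ)) := by
    rw [τ.surjective.range_comp]
    exact hB
  have hB1' : M.IsBase (Set.range (b' ∘ τ')) := by
    rw [τ'.surjective.range_comp]
    exact hB'
  obtain ⟨σ, σ', h1, -, h3⟩ := Pool.Agent.Near48.near_refine M (b ∘ τ) (b' ∘ τ') hb1 hB1 hB1'
  refine ⟨τ * σ, τ' * σ', fun i hi => ?_⟩
  rcases hi with hi | hi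
  · exact h1 i hi
  · exact h3 (i.val % r) (fun j hj => hτ j (by rw [hj]; exact hi)) i rfl

end Pool.Agent.Gab7c_h87
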