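import Pool.Agent.Gab7c_h87.Sat
import Pool.Agent.Gab7c_h87.Base

/-!
# The clauses of the problem for a fixed rank and their meaning
-/

set_option autoImplicit false

namespace Pool.Agent.Gab7c_h87

open Pool.Agent.Gabow87 Pool.Agent.Gab7c_h87.Sat

/-- the pair `(X, V)` is good and reached by a chain whose last pair contains `e` -/
def LastE {α : Type*} [DecidableEq α] (P : Finset α → Prop) (B B' X V : Finset α) (e : α) : Prop :=
  Good P B B' X V ∧ ∃ x ∈ X, ∃ v ∈ V, (e = x ∨ e = v) ∧
    ∃ m, GCh P B B' m (X.erase x) (V.erase v)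

/-- the pair `(X, V)` is good and reached by a chain whose last but one pair contains `e` -/
def PenE {α : Type*} [DecidableEq α] (P : Finset α → Prop) (B B' X V : Finset α) (e : α) : Prop :=
  Good P B B' X V ∧ ∃ x ∈ X, ∃ v ∈ V, LastE P B B' (X.erase x) (V.erase v) e

/-- Two pairs of sets of size `3` which meet exactly in `e`, both reached by chains; `e` is in the
last pair of the second chain and, for `k = 2` and `k = 1`, in the last and in the last but one
pair of the first chain, respectively. -/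
def Cfg {α : Type*} [DecidableEq α] (k : ℕ) (P : Finset α → Prop) (B B' : Finset α) : Prop :=
  ∃ X₁ ⊆ B, ∃ V₁ ⊆ B', ∃ X₂ ⊆ B, ∃ V₂ ⊆ B', ∃ e, X₁.card = 3 ∧ X₂.card = 3 ∧
    (X₁ ∪ V₁) ∩ (X₂ ∪ V₂) = {e} ∧ LastE P B B' X₂ V₂ e ∧
    ((k = 2 ∧ LastE P B B' X₁ V₁ e) ∨ (k = 1 ∧ PenE P B B' X₁ V₁ e) ∨
      (k = 0 ∧ ∃ m, GCh P B B' m X₁ V₁))

/-- parameters: the rank; the levels which are good for the first and for the second basis; the
sizes of two chains which cannot be disjoint; marks of further bases; pairs of marks of which at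
most one is the mark of a basis -/
structure Par where
  /-- rank -/
  r : ℕ
  /-- levels which are good for the first basis -/
  m0 : ℕ
  /-- levels which are good for the second basis -/
  m1 : ℕ
  /-- sizes of two chains which cannot be disjoint -/
  hs : List (ℕ × ℕ)
  /-- bases -/
  ls : List ℕ
  /-- pairs of sets which are not both bases -/
  ns : List (ℕ × ℕ)
  /-- excluded configurations -/
  cs : List ℕ

/-- Two disjoint bases of rank `r`, with names `ρ 0, ..., ρ (r-1)` and `ρ r, ..., ρ (2 r - 1)`,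
without two disjoint chains with lengths in `hs`; for the binary digits `i` of `m0`, exchanging
the first `i + 1` names gives a basis in place of the first one, for those of `m1` in place of the
second one. -/
structure Cx (α : Type*) [DecidableEq α] extends Par where
  /-- the names -/
  ρ : ℕ → α
  /-- the family of bases -/
  P : Finset α → Prop
  inj : ∀ i < 2 * r, ∀ j < 2 * r, ρ i = ρ j → i = j
  exch : ∀ S T, P S → P T → ∀ x ∈ S, x ∉ T → ∃ y ∈ T, y ∉ S ∧ P (insert y (S.erase x)) ∧
    P (insert x (T.erase y))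
  b0 : P ((Finset.range r).image ρ)
  b1 : P ((Finset.range r).image fun i => ρ (r + i))
  hu0 : ∀ i < r, m0.testBit i = true → P (((Finset.range r).image ρ \
    (Finset.range (i + 1)).image ρ) ∪ (Finset.range (i + 1)).image fun i => ρ (r + i))
  hu1 : ∀ i < r, m1.testBit i = true → P (((Finset.range r).image fun i => ρ (r + i)) \
    ((Finset.range (i + 1)).image fun i => ρ (r + i)) ∪ (Finset.range (i + 1)).image ρ)
  hls : ∀ T ∈ ls, P (((Finset.range (2 * r)).filter fun i => T.testBit i = true).image ρ)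
  hns : ∀ q ∈ ns, P (((Finset.range (2 * r)).filter fun i => q.1.testBit i = true).image ρ) →
    P (((Finset.range (2 * r)).filter fun i => q.2.testBit i = true).image ρ) → False
  hcs : ∀ k ∈ cs, ¬ Cfg k P ((Finset.range r).image ρ) ((Finset.range r).image fun i => ρ (r + i))
  totV : ∀ V ⊆ (Finset.range r).image fun i => ρ (r + i), V.card ≤ 2 →
    ∃ X ⊆ (Finset.range r).image ρ, ∃ m, GCh P ((Finset.range r).image ρ)
      ((Finset.range r).image fun i => ρ (r + i)) m X V
  totX : ∀ X ⊆ (Finset.range r).image ρ, X.card ≤ 2 →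
    ∃ V ⊆ (Finset.range r).image fun i => ρ (r + i), ∃ m, GCh P ((Finset.range r).image ρ)
      ((Finset.range r).image fun i => ρ (r + i)) m X V
  nodd : ∀ X ⊆ (Finset.range r).image ρ, ∀ X' ⊆ (Finset.range r).image ρ,
    ∀ V ⊆ (Finset.range r).image fun i => ρ (r + i),
    ∀ V' ⊆ (Finset.range r).image fun i => ρ (r + i), Disjoint X X' → Disjoint V V' →
    ∀ q ∈ hs,
    GCh P ((Finset.range r).image ρ) ((Finset.range r).image fun i => ρ (r + i)) q.1 X V →
    GCh P ((Finset.range r).image ρ) ((Finset.range r).image fun i => ρ (r + i)) q.2 X' V' → False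

/-- mark of a name -/
def bt (i : ℕ) : ℕ := Nat.shiftLeft 1 i
/-- `k` ones -/
def full (k : ℕ) : ℕ := Nat.sub (Nat.shiftLeft 1 k) 1
/-- marks of the names in a list -/
noncomputable def msk (l : List ℕ) : ℕ := List.rec 0 (fun e _ m => Nat.lor (bt e) m) l
/-- mark of `B \ X ∪ V` -/
def so (r I J : ℕ) : ℕ := Nat.lor (Nat.xor (full r) I) (Nat.shiftLeft J r)
/-- mark of `B' \ V ∪ X` -/
def so' (r I J : ℕ) : ℕ := Nat.lor I (Nat.shiftLeft (Nat.xor (full r) J) r)

theorem testBit_bt (i j : ℕ) : (bt i).testBit j = decide (i = j) := testBit_one_shiftLeft' i j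

theorem testBit_full (k j : ℕ) : (full k).testBit j = decide (j < k) := by
  have : full k = 2 ^ k - 1 := by
    change (1 <<< k) - 1 = _
    rw [Nat.one_shiftLeft]
  rw [this, Nat.testBit_two_pow_sub_one]

theorem testBit_lor (a b j : ℕ) : (Nat.lor a b).testBit j = (a.testBit j || b.testBit j) :=
  Nat.testBit_or a b j
theorem testBit_xor' (a b j : ℕ) : (Nat.xor a b).testBit j = (a.testBit j ^^ b.testBit j) :=
  Nat.testBit_xor a b j
theorem testBit_land' (a b j : ℕ) : (Nat.land a b).testBit j = (a.testBit j && b.testBit j) :=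
  Nat.testBit_and a b j
theorem testBit_shl (a k j : ℕ) :
    (Nat.shiftLeft a k).testBit j = (decide (k ≤ j) && a.testBit (j - k)) :=
  Nat.testBit_shiftLeft a

theorem msk_cons (e : ℕ) (l : List ℕ) : msk (e :: l) = Nat.lor (bt e) (msk l) := rfl

theorem testBit_msk (l : List ℕ) (j : ℕ) : (msk l).testBit j = true ↔ j ∈ l := by
  induction l with
  | nil =>
    change (0 : ℕ).testBit j = true ↔ _
    simp
  | cons e l ih =>
    rw [msk_cons, testBit_lor, Bool.or_eq_true, testBit_bt, ih, List.mem_cons]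
    simp [eq_comm]

namespace Cx

variable {α : Type*} [DecidableEq α] (c : Cx α)

/-- the first basis -/
def B : Finset α := (Finset.range c.r).image c.ρ
/-- the second basis -/
def B' : Finset α := (Finset.range c.r).image fun i => c.ρ (c.r + i)

/-- the set of the elements whose names are marked by the binary digits of `T` -/
def nm (T : ℕ) : Finset α :=
  ((Finset.range (2 * c.r)).filter fun i => T.testBit i = true).image c.ρ

theorem mem_nm (T : ℕ) (t : α) : t ∈ c.nm T ↔ ∃ i < 2 * c.r, T.testBit i = true ∧ c.ρ i = t := by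
  simp only [nm, Finset.mem_image, Finset.mem_filter, Finset.mem_range]
  constructor
  · rintro ⟨i, ⟨h1, h2⟩, h3⟩; exact ⟨i, h1, h2, h3⟩
  · rintro ⟨i, h1, h2, h3⟩; exact ⟨i, ⟨h1, h2⟩, h3⟩

theorem rho_mem_nm (T : ℕ) {i : ℕ} (hi : i < 2 * c.r) : c.ρ i ∈ c.nm T ↔ T.testBit i = true := by
  rw [mem_nm]
  constructor
  · rintro ⟨j, hj, h1, h2⟩
    rwa [← c.inj _ hj _ hi h2]
  · intro h; exact ⟨i, hi, h, rfl⟩

theorem nm_zero : c.nm 0 = ∅ := by
  ext t
  rw [mem_nm]
  simp

theorem nm_full : c.nm (full c.r) = c.B := by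
  ext t
  rw [mem_nm, B, Finset.mem_image]
  constructor
  · rintro ⟨i, _, h1, h2⟩
    rw [testBit_full, decide_eq_true_eq] at h1
    exact ⟨i, Finset.mem_range.mpr h1, h2⟩
  · rintro ⟨i, h1, h2⟩
    rw [Finset.mem_range] at h1
    exact ⟨i, by omega, by rw [testBit_full, decide_eq_true_eq]; exact h1, h2⟩

theorem nm_full' : c.nm (Nat.shiftLeft (full c.r) c.r) = c.B' := by
  ext t
  rw [mem_nm, B', Finset.mem_image]
  constructor
  · rintro ⟨i, _, h1, h2⟩
    rw [testBit_shl, testBit_full, Bool.and_eq_true, decide_eq_true_eq, decide_eq_true_eq] at h1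
    exact ⟨i - c.r, Finset.mem_range.mpr h1.2, by rw [← h2]; congr 1; omega⟩
  · rintro ⟨i, h1, h2⟩
    rw [Finset.mem_range] at h1
    refine ⟨c.r + i, by omega, ?_, h2⟩
    rw [testBit_shl, testBit_full, Bool.and_eq_true, decide_eq_true_eq, decide_eq_true_eq]
    omega

/-- the set marked by `I` in the first basis -/
theorem nm_so (I J : ℕ) (hI : Nat.lor I (full c.r) = full c.r)
    (hJ : Nat.lor J (full c.r) = full c.r) :
    c.nm (so c.r I J) = (c.B \ c.nm I) ∪ c.nm (Nat.shiftLeft J c.r) := by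
  have hI' : ∀ i, I.testBit i = true → i < c.r := by
    intro i hi
    have : (Nat.lor I (full c.r)).testBit i = true := by
      rw [testBit_lor, hi]; rfl
    rw [hI, testBit_full, decide_eq_true_eq] at this
    exact this
  ext t
  rw [Finset.mem_union, Finset.mem_sdiff, ← nm_full, mem_nm]
  constructor
  · rintro ⟨i, hi, h1, rfl⟩
    rw [rho_mem_nm c _ hi, rho_mem_nm c _ hi, rho_mem_nm c _ hi]
    unfold so at h1
    rw [testBit_lor, testBit_xor', Bool.or_eq_true, testBit_full] at h1
    rcases h1 with h1 | h1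
    · left
      rw [testBit_full]
      cases h2 : I.testBit i with
      | true =>
        have := hI' i h2
        rw [h2] at h1
        simp [this] at h1
      | false =>
        rw [h2] at h1
        exact ⟨by simpa using h1, by simp⟩
    · right; exact h1
  · rintro (⟨h1, h2⟩ | h1)
    · obtain ⟨i, hi, h3, rfl⟩ := (mem_nm c _ _).mp h1
      rw [rho_mem_nm c _ hi] at h2
      refine ⟨i, hi, ?_, rfl⟩
      unfold so
      rw [testBit_lor, testBit_xor', h3]
      have : I.testBit i = false := by simpa using h2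
      rw [this]; rfl
    · obtain ⟨i, hi, h3, rfl⟩ := (mem_nm c _ _).mp h1
      refine ⟨i, hi, ?_, rfl⟩
      unfold so
      rw [testBit_lor, h3, Bool.or_true]

theorem nm_so' (I J : ℕ) (hI : Nat.lor I (full c.r) = full c.r)
    (hJ : Nat.lor J (full c.r) = full c.r) :
    c.nm (so' c.r I J) = (c.B' \ c.nm (Nat.shiftLeft J c.r)) ∪ c.nm I := by
  have hJ' : ∀ i, J.testBit i = true → i < c.r := by
    intro i hi
    have : (Nat.lor J (full c.r)).testBit i = true := by
      rw [testBit_lor, hi]; rfl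
    rw [hJ, testBit_full, decide_eq_true_eq] at this
    exact this
  ext t
  rw [Finset.mem_union, Finset.mem_sdiff, ← nm_full', mem_nm]
  constructor
  · rintro ⟨i, hi, h1, rfl⟩
    rw [rho_mem_nm c _ hi, rho_mem_nm c _ hi, rho_mem_nm c _ hi]
    unfold so' at h1
    rw [testBit_lor, Bool.or_eq_true] at h1
    rcases h1 with h1 | h1
    · right; exact h1
    · left
      rw [testBit_shl, testBit_xor', Bool.and_eq_true] at h1
      rw [testBit_shl, testBit_shl, Bool.and_eq_true]
      cases h2 : J.testBit (i - c.r) with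
      | true =>
        have h3 := hJ' _ h2
        rw [h2, testBit_full] at h1
        simp [h3] at h1
      | false =>
        rw [h2, Bool.xor_false] at h1
        exact ⟨h1, by simp⟩
  · rintro (⟨h1, h2⟩ | h1)
    · obtain ⟨i, hi, h3, rfl⟩ := (mem_nm c _ _).mp h1
      rw [rho_mem_nm c _ hi] at h2
      refine ⟨i, hi, ?_, rfl⟩
      unfold so'
      rw [testBit_shl, Bool.and_eq_true] at h3
      rw [testBit_shl, Bool.and_eq_true, not_and] at h2
      have : J.testBit (i - c.r) = false := by simpa using h2 h3.1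
      rw [testBit_lor, testBit_shl, testBit_xor', h3.1, h3.2, this]
      simp
    · obtain ⟨i, hi, h3, rfl⟩ := (mem_nm c _ _).mp h1
      refine ⟨i, hi, ?_, rfl⟩
      unfold so'
      rw [testBit_lor, h3, Bool.true_or]

theorem nm_or_bt (T i : ℕ) (hi : i < 2 * c.r) : c.nm (Nat.lor (bt i) T) = insert (c.ρ i) (c.nm T) := by
  ext t
  rw [Finset.mem_insert, mem_nm, mem_nm]
  constructor
  · rintro ⟨j, hj, h1, rfl⟩
    rw [testBit_lor, Bool.or_eq_true, testBit_bt, decide_eq_true_eq] at h1
    rcases h1 with h1 | h1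
    · left; rw [h1]
    · right; exact ⟨j, hj, h1, rfl⟩
  · rintro (rfl | ⟨j, hj, h1, rfl⟩)
    · exact ⟨i, hi, by rw [testBit_lor, testBit_bt]; simp, rfl⟩
    · exact ⟨j, hj, by rw [testBit_lor, h1, Bool.or_true], rfl⟩

theorem nm_or (S T : ℕ) : c.nm (Nat.lor S T) = c.nm S ∪ c.nm T := by
  ext t
  rw [Finset.mem_union, mem_nm, mem_nm, mem_nm]
  constructor
  · rintro ⟨j, hj, h1, rfl⟩
    rw [testBit_lor, Bool.or_eq_true] at h1
    rcases h1 with h1 | h1
    · left; exact ⟨j, hj, h1, rfl⟩
    · right; exact ⟨j, hj, h1, rfl⟩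
  · rintro (⟨j, hj, h1, rfl⟩ | ⟨j, hj, h1, rfl⟩)
    · exact ⟨j, hj, by rw [testBit_lor, h1, Bool.true_or], rfl⟩
    · exact ⟨j, hj, by rw [testBit_lor, h1, Bool.or_true], rfl⟩

theorem shl_or_bt (J j : ℕ) : Nat.shiftLeft (Nat.lor (bt j) J) c.r =
    Nat.lor (bt (c.r + j)) (Nat.shiftLeft J c.r) := by
  apply Nat.eq_of_testBit_eq
  intro i
  rw [testBit_shl, testBit_lor, testBit_lor, testBit_bt, testBit_bt, testBit_shl]
  by_cases h : c.r ≤ i
  · have h1 : (j = i - c.r) ↔ (c.r + j = i) := by omega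
    simp only [h, decide_true, Bool.true_and, h1]
  · have h1 : ¬ c.r + j = i := by omega
    simp [h, h1]

/-- meaning of the variables -/
def sem (v : VC) : Prop :=
  (v.k = 0 ∧ c.P (c.nm v.a)) ∨
  (v.k = 1 ∧ ∃ m, GCh c.P c.B c.B' m (c.nm v.a) (c.nm (Nat.shiftLeft v.b c.r))) ∨
  (v.k = 2 ∧ c.P (c.nm v.a) ∧ c.P (c.nm (Nat.xor v.a (full (Nat.mul 2 c.r))))) ∨
  (v.k = 3 ∧ LastE c.P c.B c.B' (c.nm v.a) (c.nm (Nat.shiftLeft v.b c.r)) (c.ρ v.c)) ∨
  (v.k = 4 ∧ PenE c.P c.B c.B' (c.nm v.a) (c.nm (Nat.shiftLeft v.b c.r)) (c.ρ v.c))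

end Cx

/-- variable: the set with mark `T` is a base -/
def vP (T : ℕ) : VC := ⟨0, T, 0, 0⟩
/-- variable: there is a chain -/
def vR (I J : ℕ) : VC := ⟨1, I, J, 0⟩
/-- variable: the last pair contains `y` -/
def vU (I J y : ℕ) : VC := ⟨3, I, J, y⟩
/-- variable: the last but one pair contains `y` -/
def vW (I J y : ℕ) : VC := ⟨4, I, J, y⟩
/-- variable: the set with mark `T` and its complement are bases -/
def vG (T : ℕ) : VC := ⟨2, T, 0, 0⟩
/-- the one of a set and its complement which contains the name `0` -/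
def cn (r T : ℕ) : ℕ := cond (Nat.beq (Nat.mod T 2) 1) T (Nat.xor T (full (Nat.mul 2 r)))

namespace Cx

variable {α : Type*} [DecidableEq α] (c : Cx α)

theorem sem_vP (T : ℕ) : c.sem (vP T) ↔ c.P (c.nm T) := by simp [sem, vP]

theorem sem_vR (I J : ℕ) : c.sem (vR I J) ↔
    ∃ m, GCh c.P c.B c.B' m (c.nm I) (c.nm (Nat.shiftLeft J c.r)) := by
  simp [sem, vR]

theorem sem_vU (I J y : ℕ) : c.sem (vU I J y) ↔
    LastE c.P c.B c.B' (c.nm I) (c.nm (Nat.shiftLeft J c.r)) (c.ρ y) := by
  simp [sem, vU]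

theorem sem_vW (I J y : ℕ) : c.sem (vW I J y) ↔
    PenE c.P c.B c.B' (c.nm I) (c.nm (Nat.shiftLeft J c.r)) (c.ρ y) := by
  simp [sem, vW]

theorem sem_vG (T : ℕ) : c.sem (vG (cn c.r T)) ↔
    c.P (c.nm T) ∧ c.P (c.nm (Nat.xor T (full (Nat.mul 2 c.r)))) := by
  unfold cn
  cases Nat.beq (Nat.mod T 2) 1 with
  | true => simp [sem, vG]
  | false =>
    have h1 : Nat.xor (Nat.xor T (full (Nat.mul 2 c.r))) (full (Nat.mul 2 c.r)) = T :=
      Nat.xor_xor_cancel_right _ _
    simp [sem, vG, h1, and_comm]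

end Cx

/-- the kinds of axiom clauses -/
inductive Ax where
  | b0
  | b1
  | u0 (i : ℕ)
  | u1 (i : ℕ)
  | ex (C x : ℕ) (ds ys : List ℕ)
  | r0
  | gd (I J i j : ℕ)
  | no (I J K L : ℕ)
  | ty (k J : ℕ)
  | tx (k I : ℕ)
  | pu (T : ℕ)
  | nd (T U : ℕ)
  | rg (w I J : ℕ)
  | rl (is js : List ℕ)
  | g1 (T : ℕ)
  | g2 (T : ℕ)
  | g3 (T : ℕ)
  | gr (I J : ℕ)
  | sx (T e : ℕ) (fs : List ℕ)
  | ud (I J i j y : ℕ)
  | wd (I J i j y : ℕ)
  | nu (I J K L y : ℕ)
  | nw (I J K L y : ℕ)
  | nr (I J K L y : ℕ)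

/-- the number of binary digits `1` among the first `n` digits -/
noncomputable def pc (T n : ℕ) : ℕ :=
  Nat.rec 0 (fun i k => cond (Nat.beq (Nat.land (bt i) T) 0) k (Nat.succ k)) n

/-- marks of the sets with `k` elements -/
def subs : ℕ → ℕ → List ℕ
  | 0, 0 => [0]
  | 0, _ + 1 => []
  | _ + 1, 0 => [0]
  | n + 1, k + 1 => subs n (k + 1) ++ (subs n k).map (Nat.lor (bt n))

/-- `a < b` -/
def lt (a b : ℕ) : Bool := Nat.ble (Nat.succ a) b
theorem lt_iff {a b : ℕ} : lt a b = true ↔ a < b := by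
  unfold lt; rw [Nat.ble_eq]; exact Iff.rfl

/-- side conditions for excluded configurations -/
noncomputable def vcfg (p : Par) (k I J K L y : ℕ) : Bool :=
  (p.cs.any (Nat.beq k)) && lt y (Nat.mul 2 p.r) &&
    Nat.beq (Nat.lor I (full p.r)) (full p.r) && Nat.beq (Nat.lor J (full p.r)) (full p.r) &&
    Nat.beq (Nat.lor K (full p.r)) (full p.r) && Nat.beq (Nat.lor L (full p.r)) (full p.r) &&
    Nat.beq (pc I (Nat.mul 2 p.r)) 3 && Nat.beq (pc K (Nat.mul 2 p.r)) 3 &&
    Nat.beq (Nat.land (Nat.lor I (Nat.shiftLeft J p.r)) (Nat.lor K (Nat.shiftLeft L p.r))) (bt y)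

/-- side conditions -/
noncomputable def valid (p : Par) : Ax → Bool
  | .b0 => true
  | .b1 => true
  | .u0 i => lt i p.r && Nat.beq (Nat.land (bt i) p.m0) (bt i)
  | .u1 i => lt i p.r && Nat.beq (Nat.land (bt i) p.m1) (bt i)
  | .ex C x ds ys => lt x (Nat.mul 2 p.r) &&
      Nat.beq (Nat.land (bt x) (Nat.lor C (Nat.lor (msk ds) (msk ys)))) 0
  | .r0 => true
  | .gd I J i j => lt i p.r && lt j p.r && Nat.beq (Nat.land (bt i) I) 0 &&
      Nat.beq (Nat.land (bt j) J) 0 && Nat.beq (Nat.lor I (full p.r)) (full p.r) &&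
      Nat.beq (Nat.lor J (full p.r)) (full p.r)
  | .no I J K L => Nat.beq (Nat.land I K) 0 && Nat.beq (Nat.land J L) 0 &&
      Nat.beq (Nat.lor I (full p.r)) (full p.r) && Nat.beq (Nat.lor J (full p.r)) (full p.r) &&
      Nat.beq (Nat.lor K (full p.r)) (full p.r) && Nat.beq (Nat.lor L (full p.r)) (full p.r) &&
      p.hs.any fun q => Nat.beq (pc I (Nat.mul 2 p.r)) q.1 &&
        Nat.beq (pc K (Nat.mul 2 p.r)) q.2
  | .ty k J => Nat.ble k 2 && Nat.beq (Nat.lor J (full p.r)) (full p.r) &&
      Nat.beq (pc (Nat.shiftLeft J p.r) (Nat.mul 2 p.r)) k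
  | .tx k I => Nat.ble k 2 && Nat.beq (Nat.lor I (full p.r)) (full p.r) &&
      Nat.beq (pc I (Nat.mul 2 p.r)) k
  | .rg _ I J => Nat.beq (Nat.lor I (full p.r)) (full p.r) &&
      Nat.beq (Nat.lor J (full p.r)) (full p.r)
  | .rl is js => Nat.ble 1 is.length && (is.all fun i => lt i p.r) && js.all fun j => lt j p.r
  | .g1 _ => true
  | .g2 _ => true
  | .g3 _ => true
  | .gr I J => Nat.beq (Nat.lor I (full p.r)) (full p.r) &&
      Nat.beq (Nat.lor J (full p.r)) (full p.r)
  | .sx T e fs => lt e (Nat.mul 2 p.r) && Nat.beq (Nat.land (bt e) T) (bt e) &&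
      Nat.beq (msk fs) (Nat.xor T (full (Nat.mul 2 p.r)))
  | .ud I J i j y => lt i p.r && lt j p.r && Nat.beq (Nat.land (bt i) I) (bt i) &&
      Nat.beq (Nat.land (bt j) J) (bt j) && Nat.beq (Nat.lor I (full p.r)) (full p.r) &&
      Nat.beq (Nat.lor J (full p.r)) (full p.r) && (Nat.beq y i || Nat.beq y (Nat.add p.r j))
  | .wd I J i j _ => lt i p.r && lt j p.r && Nat.beq (Nat.land (bt i) I) (bt i) &&
      Nat.beq (Nat.land (bt j) J) (bt j) && Nat.beq (Nat.lor I (full p.r)) (full p.r) &&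
      Nat.beq (Nat.lor J (full p.r)) (full p.r)
  | .nu I J K L y => vcfg p 2 I J K L y
  | .nw I J K L y => vcfg p 1 I J K L y
  | .nr I J K L y => vcfg p 0 I J K L y
  | .pu T => p.ls.any (Nat.beq T)
  | .nd T U => p.ns.any fun q => Nat.beq T q.1 && Nat.beq U q.2

/-- positive literals -/
noncomputable def pl (T : ℕ) (ys : List ℕ) : List (Bool × VC) :=
  List.rec [] (fun y _ l => (true, vP (Nat.lor (bt y) T)) :: l) ys

/-- the literals -/
noncomputable def expd (r : ℕ) : Ax → List (Bool × VC)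
  | .b0 => [(true, vP (full r))]
  | .b1 => [(true, vP (Nat.shiftLeft (full r) r))]
  | .u0 i => [(true, vP (so r (full (Nat.succ i)) (full (Nat.succ i))))]
  | .u1 i => [(true, vP (so' r (full (Nat.succ i)) (full (Nat.succ i))))]
  | .ex C x ds ys => (false, vP (Nat.lor (bt x) (Nat.lor C (msk ds)))) ::
      (false, vP (Nat.lor C (msk ys))) :: pl (Nat.lor C (msk ds)) ys
  | .r0 => [(true, vR 0 0)]
  | .gd I J i j => [(false, vR I J), (false, vP (so r (Nat.lor (bt i) I) (Nat.lor (bt j) J))),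
      (false, vP (so' r (Nat.lor (bt i) I) (Nat.lor (bt j) J))),
      (true, vR (Nat.lor (bt i) I) (Nat.lor (bt j) J))]
  | .no I J K L => [(false, vR I J), (false, vR K L)]
  | .ty k J => (subs r k).map fun I => (true, vR I J)
  | .tx k I => (subs r k).map fun J => (true, vR I J)
  | .rg w I J => [(false, vR I J), (true, vP (cond (Nat.beq w 0) (so r I J) (so' r I J)))]
  | .rl is js => (false, vR (msk is) (msk js)) :: (is.product js).map fun q =>
      (true, vR (Nat.xor (msk is) (bt q.1)) (Nat.xor (msk js) (bt q.2)))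
  | .g1 T => [(false, vG (cn r T)), (true, vP T)]
  | .g2 T => [(false, vG (cn r T)), (true, vP (Nat.xor T (full (Nat.mul 2 r))))]
  | .g3 T => [(true, vG (cn r T)), (false, vP T), (false, vP (Nat.xor T (full (Nat.mul 2 r))))]
  | .gr I J => [(false, vR I J), (true, vG (cn r (so r I J)))]
  | .sx T e fs => (false, vG (cn r T)) :: fs.map fun f =>
      (true, vG (cn r (Nat.lor (bt f) (Nat.xor T (bt e)))))
  | .ud I J i j y => [(false, vR I J), (false, vR (Nat.xor I (bt i)) (Nat.xor J (bt j))),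
      (true, vU I J y)]
  | .wd I J i j y => [(false, vR I J), (false, vU (Nat.xor I (bt i)) (Nat.xor J (bt j)) y),
      (true, vW I J y)]
  | .nu I J K L y => [(false, vU I J y), (false, vU K L y)]
  | .nw I J K L y => [(false, vW I J y), (false, vU K L y)]
  | .nr I J K L y => [(false, vR I J), (false, vU K L y)]
  | .pu T => [(true, vP T)]
  | .nd T U => [(false, vP T), (false, vP U)]

/-- truth of a literal -/
def Cx.tr {α : Type*} [DecidableEq α] (c : Cx α) (p : Bool × VC) : Prop :=
  (p.1 = true ∧ c.sem p.2) ∨ (p.1 = false ∧ ¬ c.sem p.2)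

section

variable {α : Type*} [DecidableEq α] (c : Cx α)

theorem tr_true (v : VC) : c.tr (true, v) ↔ c.sem v := by simp [Cx.tr]
theorem tr_false (v : VC) : c.tr (false, v) ↔ ¬ c.sem v := by simp [Cx.tr]

theorem exists_cons (p : Bool × VC) (l : List (Bool × VC)) :
    (∃ q ∈ p :: l, c.tr q) ↔ c.tr p ∨ ∃ q ∈ l, c.tr q := by simp

theorem exists_nil : (∃ q ∈ ([] : List (Bool × VC)), c.tr q) ↔ False := by simp

theorem pl_sound (T : ℕ) (ys : List ℕ) (y : ℕ) (hy : y ∈ ys) (h : c.P (c.nm (Nat.lor (bt y) T))) :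
    ∃ q ∈ pl T ys, c.tr q := by
  induction ys with
  | nil => simp at hy
  | cons z ys ih =>
    change ∃ q ∈ (true, vP (Nat.lor (bt z) T)) :: pl T ys, c.tr q
    rw [exists_cons, tr_true, Cx.sem_vP]
    rcases List.mem_cons.mp hy with rfl | hy
    · exact Or.inl h
    · exact Or.inr (ih hy)

theorem full_lor (i : ℕ) (hi : i < c.r) : Nat.lor (full (Nat.succ i)) (full c.r) = full c.r := by
  apply Nat.eq_of_testBit_eq
  intro j
  rw [testBit_lor, testBit_full, testBit_full, ← Bool.decide_or]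
  congr 1
  rw [eq_iff_iff]
  omega

theorem nm_full_succ (i : ℕ) (hi : i < c.r) :
    c.nm (full (Nat.succ i)) = (Finset.range (i + 1)).image c.ρ := by
  ext t
  rw [c.mem_nm, Finset.mem_image]
  constructor
  · rintro ⟨j, _, h1, h2⟩
    rw [testBit_full, decide_eq_true_eq] at h1
    exact ⟨j, Finset.mem_range.mpr h1, h2⟩
  · rintro ⟨j, h1, h2⟩
    rw [Finset.mem_range] at h1
    exact ⟨j, by omega, by rw [testBit_full, decide_eq_true_eq]; exact h1, h2⟩

theorem nm_full_succ' (i : ℕ) (hi : i < c.r) :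
    c.nm (Nat.shiftLeft (full (Nat.succ i)) c.r) =
      (Finset.range (i + 1)).image fun j => c.ρ (c.r + j) := by
  ext t
  rw [c.mem_nm, Finset.mem_image]
  constructor
  · rintro ⟨j, _, h1, h2⟩
    rw [testBit_shl, testBit_full, Bool.and_eq_true, decide_eq_true_eq, decide_eq_true_eq] at h1
    exact ⟨j - c.r, Finset.mem_range.mpr h1.2, by rw [← h2]; congr 1; omega⟩
  · rintro ⟨j, h1, h2⟩
    rw [Finset.mem_range] at h1
    refine ⟨c.r + j, by omega, ?_, h2⟩
    rw [testBit_shl, testBit_full, Bool.and_eq_true, decide_eq_true_eq, decide_eq_true_eq]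
    omega

theorem testBit_of_land {i I : ℕ} (h : Nat.land (bt i) I = 0) : I.testBit i = false := by
  have h1 : (Nat.land (bt i) I).testBit i = false := by rw [h]; simp
  rw [testBit_land', testBit_bt] at h1
  simpa using h1

theorem testBit_of_land' {i I : ℕ} (h : Nat.land (bt i) I = bt i) : I.testBit i = true := by
  have h1 : (Nat.land (bt i) I).testBit i = (bt i).testBit i := by rw [h]
  rw [testBit_land', testBit_bt] at h1
  simpa using h1

theorem pc_eq (T n : ℕ) :
    pc T n = ((Finset.range n).filter fun i => T.testBit i = true).card := by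
  induction n with
  | zero => rfl
  | succ n ih =>
    change cond (Nat.beq (Nat.land (bt n) T) 0) (pc T n) (Nat.succ (pc T n)) = _
    rw [Finset.range_add_one, Finset.filter_insert, ih]
    cases h : Nat.beq (Nat.land (bt n) T) 0 with
    | true =>
      have h1 := testBit_of_land (Nat.eq_of_beq_eq_true h)
      rw [if_neg (by rw [h1]; simp)]
      rfl
    | false =>
      have h1 : T.testBit n = true := by
        by_contra hcon
        have h2 : T.testBit n = false := by simpa using hcon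
        have h3 : Nat.land (bt n) T = 0 := by
          apply Nat.eq_of_testBit_eq
          intro j
          rw [testBit_land', testBit_bt, Nat.zero_testBit]
          by_cases hj : n = j
          · subst hj; simp [h2]
          · simp [hj]
        rw [h3] at h
        exact absurd h (by simp)
      rw [if_pos h1, Finset.card_insert_of_notMem (by simp)]
      rfl

theorem card_nm (T : ℕ) : (c.nm T).card = pc T (2 * c.r) := by
  rw [Cx.nm, Finset.card_image_of_injOn, pc_eq]
  intro i hi j hj h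
  simp only [Finset.coe_filter, Finset.mem_range, Set.mem_setOf_eq] at hi hj
  exact c.inj i hi.1 j hj.1 h

theorem mem_subs : ∀ (n k : ℕ) (S : Finset ℕ), (∀ i ∈ S, i < n) → S.card = k →
    ∃ I ∈ subs n k, ∀ i, I.testBit i = true ↔ i ∈ S := by
  intro n
  induction n with
  | zero =>
    intro k S hS hk
    have h1 : S = ∅ := Finset.eq_empty_of_forall_notMem fun i hi => absurd (hS i hi) (by omega)
    subst h1
    subst hk
    refine ⟨0, by simp [subs], fun i => by simp⟩
  | succ n ih =>
    intro k S hS hk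
    by_cases hn : n ∈ S
    · obtain ⟨I, hI, h1⟩ := ih (k - 1) (S.erase n) (by
        intro i hi
        rw [Finset.mem_erase] at hi
        have := hS i hi.2
        omega) (by rw [Finset.card_erase_of_mem hn, hk])
      have hk0 : 0 < k := by
        rw [← hk]
        exact Finset.card_pos.mpr ⟨n, hn⟩
      obtain ⟨k, rfl⟩ : ∃ k', k = k' + 1 := ⟨k - 1, by omega⟩
      refine ⟨Nat.lor (bt n) I, ?_, ?_⟩
      · rw [subs, List.mem_append]
        right
        exact List.mem_map.mpr ⟨I, hI, rfl⟩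
      · intro i
        rw [testBit_lor, testBit_bt, Bool.or_eq_true, decide_eq_true_eq, h1, Finset.mem_erase]
        constructor
        · rintro (rfl | h)
          · exact hn
          · exact h.2
        · intro h
          by_cases hi : n = i
          · exact Or.inl hi
          · exact Or.inr ⟨fun h => hi h.symm, h⟩
    · have hS' : ∀ i ∈ S, i < n := by
        intro i hi
        have := hS i hi
        rcases Nat.lt_or_ge i n with h | h
        · exact h
        · have : i = n := by omega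
          exact absurd (this ▸ hi) hn
      rcases k with _ | k
      · have h1 : S = ∅ := Finset.card_eq_zero.mp hk
        subst h1
        exact ⟨0, by simp [subs], fun i => by simp⟩
      · obtain ⟨I, hI, h1⟩ := ih (k + 1) S hS' hk
        refine ⟨I, ?_, h1⟩
        rw [subs, List.mem_append]
        exact Or.inl hI

theorem le_full {I : ℕ} (hI : Nat.lor I (full c.r) = full c.r) (i : ℕ)
    (hi : I.testBit i = true) : i < c.r := by
  have : (Nat.lor I (full c.r)).testBit i = true := by
    rw [testBit_lor, hi]; rfl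
  rw [hI, testBit_full, decide_eq_true_eq] at this
  exact this

theorem nm_sub {I : ℕ} (hI : Nat.lor I (full c.r) = full c.r) : c.nm I ⊆ c.B := by
  intro t ht
  obtain ⟨i, hi, h1, rfl⟩ := (c.mem_nm _ _).mp ht
  exact Finset.mem_image_of_mem _ (Finset.mem_range.mpr (le_full c hI i h1))

theorem nm_sub' {J : ℕ} (hJ : Nat.lor J (full c.r) = full c.r) :
    c.nm (Nat.shiftLeft J c.r) ⊆ c.B' := by
  intro t ht
  obtain ⟨i, hi, h1, rfl⟩ := (c.mem_nm _ _).mp ht
  rw [testBit_shl, Bool.and_eq_true, decide_eq_true_eq] at h1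
  have h2 := le_full c hJ _ h1.2
  refine Finset.mem_image.mpr ⟨i - c.r, Finset.mem_range.mpr h2, ?_⟩
  change c.ρ (c.r + (i - c.r)) = _
  congr 1
  omega

theorem nm_disj {I K : ℕ} (h : Nat.land I K = 0) : Disjoint (c.nm I) (c.nm K) := by
  rw [Finset.disjoint_left]
  intro t h1 h2
  obtain ⟨i, hi, h3, rfl⟩ := (c.mem_nm _ _).mp h1
  rw [c.rho_mem_nm _ hi] at h2
  have h4 : (Nat.land I K).testBit i = true := by
    rw [testBit_land', h3, h2]; rfl
  rw [h] at h4
  simp at h4

theorem shl_disj {J L : ℕ} (h : Nat.land J L = 0) :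
    Nat.land (Nat.shiftLeft J c.r) (Nat.shiftLeft L c.r) = 0 := by
  apply Nat.eq_of_testBit_eq
  intro i
  have h4 : (Nat.land J L).testBit (i - c.r) = false := by rw [h]; simp
  rw [testBit_land'] at h4
  rw [testBit_land', testBit_shl, testBit_shl, Nat.zero_testBit]
  cases h1 : J.testBit (i - c.r) <;> cases h2 : L.testBit (i - c.r) <;> simp_all

/-- a subset of the first basis has a mark -/
theorem exists_nm {X : Finset α} (hX : X ⊆ c.B) {k : ℕ} (hk : X.card = k) :
    ∃ I ∈ subs c.r k, c.nm I = X := by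
  classical
  have hinj : ∀ i ∈ (Finset.range c.r).filter (fun i => c.ρ i ∈ X),
      ∀ j ∈ (Finset.range c.r).filter (fun i => c.ρ i ∈ X), c.ρ i = c.ρ j → i = j := by
    intro i hi j hj h
    rw [Finset.mem_filter, Finset.mem_range] at hi hj
    exact c.inj i (by omega) j (by omega) h
  have him : ((Finset.range c.r).filter fun i => c.ρ i ∈ X).image c.ρ = X := by
    ext t
    rw [Finset.mem_image]
    constructor
    · rintro ⟨i, hi, rfl⟩
      exact (Finset.mem_filter.mp hi).2
    · intro ht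
      obtain ⟨i, hi, rfl⟩ := Finset.mem_image.mp (hX ht)
      exact ⟨i, Finset.mem_filter.mpr ⟨hi, ht⟩, rfl⟩
  obtain ⟨I, hI, h1⟩ := mem_subs c.r k ((Finset.range c.r).filter fun i => c.ρ i ∈ X) (by
    intro i hi
    exact Finset.mem_range.mp (Finset.mem_filter.mp hi).1) (by
    rw [← Finset.card_image_of_injOn hinj, him, hk])
  refine ⟨I, hI, ?_⟩
  ext t
  rw [c.mem_nm]
  constructor
  · rintro ⟨i, hi, h2, rfl⟩
    rw [h1, Finset.mem_filter] at h2
    exact h2.2
  · intro ht
    obtain ⟨i, hi, rfl⟩ := Finset.mem_image.mp (hX ht)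
    refine ⟨i, ?_, ?_, rfl⟩
    · have := Finset.mem_range.mp hi
      omega
    · rw [h1, Finset.mem_filter]
      exact ⟨hi, ht⟩

/-- a subset of the second basis has a mark -/
theorem exists_nm' {V : Finset α} (hV : V ⊆ c.B') {k : ℕ} (hk : V.card = k) :
    ∃ J ∈ subs c.r k, c.nm (Nat.shiftLeft J c.r) = V := by
  classical
  have hinj : ∀ i ∈ (Finset.range c.r).filter (fun i => c.ρ (c.r + i) ∈ V),
      ∀ j ∈ (Finset.range c.r).filter (fun i => c.ρ (c.r + i) ∈ V),
      c.ρ (c.r + i) = c.ρ (c.r + j) → i = j := by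
    intro i hi j hj h
    rw [Finset.mem_filter, Finset.mem_range] at hi hj
    have := c.inj (c.r + i) (by omega) (c.r + j) (by omega) h
    omega
  have him : ((Finset.range c.r).filter fun i => c.ρ (c.r + i) ∈ V).image
      (fun i => c.ρ (c.r + i)) = V := by
    ext t
    rw [Finset.mem_image]
    constructor
    · rintro ⟨i, hi, rfl⟩
      exact (Finset.mem_filter.mp hi).2
    · intro ht
      obtain ⟨i, hi, rfl⟩ := Finset.mem_image.mp (hV ht)
      exact ⟨i, Finset.mem_filter.mpr ⟨hi, ht⟩, rfl⟩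
  obtain ⟨J, hJ, h1⟩ := mem_subs c.r k ((Finset.range c.r).filter fun i => c.ρ (c.r + i) ∈ V) (by
    intro i hi
    exact Finset.mem_range.mp (Finset.mem_filter.mp hi).1) (by
    rw [← Finset.card_image_of_injOn hinj, him, hk])
  refine ⟨J, hJ, ?_⟩
  ext t
  rw [c.mem_nm]
  constructor
  · rintro ⟨i, hi, h2, rfl⟩
    rw [testBit_shl, Bool.and_eq_true, decide_eq_true_eq, h1, Finset.mem_filter] at h2
    have : c.r + (i - c.r) = i := by omega
    rw [this] at h2
    exact h2.2.2
  · intro ht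
    obtain ⟨i, hi, rfl⟩ := Finset.mem_image.mp (hV ht)
    have hi' := Finset.mem_range.mp hi
    refine ⟨c.r + i, by omega, ?_, rfl⟩
    rw [testBit_shl, Bool.and_eq_true, decide_eq_true_eq, h1, Finset.mem_filter]
    have : c.r + i - c.r = i := by omega
    rw [this]
    exact ⟨by omega, hi, ht⟩

theorem nm_xor_bt (I i : ℕ) (hi : i < 2 * c.r) (h : I.testBit i = true) :
    c.nm (Nat.xor I (bt i)) = (c.nm I).erase (c.ρ i) := by
  ext t
  rw [Finset.mem_erase, c.mem_nm, c.mem_nm]
  constructor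
  · rintro ⟨j, hj, h1, rfl⟩
    rw [testBit_xor', testBit_bt] at h1
    by_cases hij : i = j
    · subst hij
      rw [h] at h1
      simp at h1
    · refine ⟨fun h2 => hij (c.inj _ hi _ hj h2.symm), j, hj, ?_, rfl⟩
      simpa [hij] using h1
  · rintro ⟨h2, j, hj, h1, rfl⟩
    refine ⟨j, hj, ?_, rfl⟩
    have hij : i ≠ j := fun h3 => h2 (by rw [h3])
    rw [testBit_xor', testBit_bt, h1]
    simp [hij]

theorem shl_xor_bt (J j : ℕ) : Nat.shiftLeft (Nat.xor J (bt j)) c.r =
    Nat.xor (Nat.shiftLeft J c.r) (bt (c.r + j)) := by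
  apply Nat.eq_of_testBit_eq
  intro i
  rw [testBit_shl, testBit_xor', testBit_xor', testBit_bt, testBit_bt, testBit_shl]
  by_cases h : c.r ≤ i
  · have h1 : (j = i - c.r) ↔ (c.r + j = i) := by omega
    simp only [h, decide_true, Bool.true_and, h1]
  · have h1 : ¬ c.r + j = i := by omega
    simp [h, h1]

theorem nm_so_xor (I J : ℕ) (hI : Nat.lor I (full c.r) = full c.r)
    (hJ : Nat.lor J (full c.r) = full c.r) :
    c.nm (Nat.xor (so c.r I J) (full (Nat.mul 2 c.r))) = c.nm (so' c.r I J) := by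
  have key : ∀ i < 2 * c.r, (Nat.xor (so c.r I J) (full (Nat.mul 2 c.r))).testBit i =
      (so' c.r I J).testBit i := by
    intro i hi
    have h2 : (full (Nat.mul 2 c.r)).testBit i = true := by
      rw [testBit_full, decide_eq_true_eq]
      exact hi
    unfold so so'
    rw [testBit_xor', h2, testBit_lor, testBit_lor, testBit_xor', testBit_shl, testBit_shl,
      testBit_xor', testBit_full, testBit_full]
    by_cases h : c.r ≤ i
    · have h3 : I.testBit i = false := by
        by_contra hcon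
        have := le_full c hI i (by simpa using hcon)
        omega
      have h4 : i - c.r < c.r := by omega
      have h5 : ¬ i < c.r := by omega
      simp [h, h3, h4, h5]
    · have h5 : i < c.r := by omega
      simp [h, h5]
  ext t
  rw [c.mem_nm, c.mem_nm]
  constructor
  · rintro ⟨i, hi, h1, rfl⟩
    exact ⟨i, hi, by rw [← key i hi]; exact h1, rfl⟩
  · rintro ⟨i, hi, h1, rfl⟩
    exact ⟨i, hi, by rw [key i hi]; exact h1, rfl⟩

theorem xor_exch (T e k : ℕ) (he : e < 2 * c.r) (hk : k < 2 * c.r) (hTe : T.testBit e = true)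
    (hTk : T.testBit k = false) :
    Nat.xor (Nat.lor (bt k) (Nat.xor T (bt e))) (full (Nat.mul 2 c.r)) =
      Nat.lor (bt e) (Nat.xor (Nat.xor T (full (Nat.mul 2 c.r))) (bt k)) := by
  have hek : e ≠ k := fun h => by rw [h, hTk] at hTe; cases hTe
  apply Nat.eq_of_testBit_eq
  intro i
  simp only [testBit_xor', testBit_lor, testBit_bt, testBit_full]
  have e1 : decide (i < Nat.mul 2 c.r) = decide (i < 2 * c.r) := rfl
  rw [e1]
  by_cases h1 : k = i
  · subst h1
    simp [hTk, hk, hek]
  · by_cases h2 : e = i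
    · subst h2
      simp [hTe, he, h1]
    · simp [h1, h2]

theorem good_of_gch {P : Finset α → Prop} {B B' : Finset α} (hB : P B) (hB' : P B') {m : ℕ}
    {X V : Finset α} (h : GCh P B B' m X V) : P ((B \ X) ∪ V) ∧ P ((B' \ V) ∪ X) := by
  cases m with
  | zero =>
    obtain ⟨rfl, rfl⟩ := h
    simpa using ⟨hB, hB'⟩
  | succ m => exact h.1

theorem nm_inter (S T : ℕ) : c.nm (Nat.land S T) = c.nm S ∩ c.nm T := by
  ext t
  rw [Finset.mem_inter, c.mem_nm]
  constructor
  · rintro ⟨i, hi, h1, rfl⟩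
    rw [testBit_land', Bool.and_eq_true] at h1
    rw [c.rho_mem_nm _ hi, c.rho_mem_nm _ hi]
    exact h1
  · rintro ⟨h1, h2⟩
    obtain ⟨i, hi, h3, rfl⟩ := (c.mem_nm _ _).mp h1
    rw [c.rho_mem_nm _ hi] at h2
    exact ⟨i, hi, by rw [testBit_land', h3, h2]; rfl, rfl⟩

theorem nm_bt {y : ℕ} (hy : y < 2 * c.r) : c.nm (bt y) = {c.ρ y} := by
  ext t
  rw [c.mem_nm, Finset.mem_singleton]
  constructor
  · rintro ⟨i, hi, h1, rfl⟩
    rw [testBit_bt, decide_eq_true_eq] at h1
    rw [h1]
  · rintro rfl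
    exact ⟨y, hy, by rw [testBit_bt]; simp, rfl⟩

/-- an excluded configuration -/
theorem no_cfg {k I J K L y : ℕ} (hv : vcfg c.toPar k I J K L y = true)
    (h2 : LastE c.P c.B c.B' (c.nm K) (c.nm (Nat.shiftLeft L c.r)) (c.ρ y))
    (h1 : (k = 2 ∧ LastE c.P c.B c.B' (c.nm I) (c.nm (Nat.shiftLeft J c.r)) (c.ρ y)) ∨
      (k = 1 ∧ PenE c.P c.B c.B' (c.nm I) (c.nm (Nat.shiftLeft J c.r)) (c.ρ y)) ∨
      (k = 0 ∧ ∃ m, GCh c.P c.B c.B' m (c.nm I) (c.nm (Nat.shiftLeft J c.r)))) : False := by
  simp only [vcfg, Bool.and_eq_true, List.any_eq_true, lt_iff] at hv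
  obtain ⟨⟨⟨⟨⟨⟨⟨⟨⟨k', hk', hk⟩, hy⟩, hI⟩, hJ⟩, hK⟩, hL⟩, hI3⟩, hK3⟩, hm⟩ := hv
  have hk := Nat.eq_of_beq_eq_true hk
  subst hk
  have hy : y < 2 * c.r := hy
  have hI := Nat.eq_of_beq_eq_true hI
  have hJ := Nat.eq_of_beq_eq_true hJ
  have hK := Nat.eq_of_beq_eq_true hK
  have hL := Nat.eq_of_beq_eq_true hL
  have hI3 : pc I (2 * c.r) = 3 := Nat.eq_of_beq_eq_true hI3
  have hK3 : pc K (2 * c.r) = 3 := Nat.eq_of_beq_eq_true hK3
  have hm := Nat.eq_of_beq_eq_true hm
  refine c.hcs _ hk' ⟨c.nm I, nm_sub c hI, c.nm (Nat.shiftLeft J c.r), nm_sub' c hJ, c.nm K,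
    nm_sub c hK, c.nm (Nat.shiftLeft L c.r), nm_sub' c hL, c.ρ y, ?_, ?_, ?_, h2, h1⟩
  · rw [card_nm, hI3]
  · rw [card_nm, hK3]
  · rw [← c.nm_or, ← c.nm_or, ← nm_inter, hm, nm_bt c hy]

theorem good_nm {I J m : ℕ} (h : GCh c.P c.B c.B' m (c.nm I) (c.nm (Nat.shiftLeft J c.r))) :
    Good c.P c.B c.B' (c.nm I) (c.nm (Nat.shiftLeft J c.r)) :=
  good_of_gch (B := c.B) (B' := c.B') c.b0 c.b1 h

theorem ax_sound (ax : Ax) (hv : valid c.toPar ax = true) : ∃ p ∈ expd c.r ax, c.tr p := by
  cases ax with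
  | b0 =>
    rw [expd, exists_cons, tr_true, Cx.sem_vP, c.nm_full]
    exact Or.inl c.b0
  | b1 =>
    rw [expd, exists_cons, tr_true, Cx.sem_vP, c.nm_full']
    exact Or.inl c.b1
  | u0 i =>
    simp only [valid, lt_iff, Bool.and_eq_true] at hv
    obtain ⟨hir, hv⟩ := hv
    have hv := testBit_of_land' (Nat.eq_of_beq_eq_true hv)
    rw [expd, exists_cons, tr_true, Cx.sem_vP,
      c.nm_so _ _ (full_lor c i (by omega)) (full_lor c i (by omega)),
      nm_full_succ c i (by omega), nm_full_succ' c i (by omega)]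
    exact Or.inl (c.hu0 i hir hv)
  | u1 i =>
    simp only [valid, lt_iff, Bool.and_eq_true] at hv
    obtain ⟨hir, hv⟩ := hv
    have hv := testBit_of_land' (Nat.eq_of_beq_eq_true hv)
    rw [expd, exists_cons, tr_true, Cx.sem_vP,
      c.nm_so' _ _ (full_lor c i (by omega)) (full_lor c i (by omega)),
      nm_full_succ c i (by omega), nm_full_succ' c i (by omega)]
    exact Or.inl (c.hu1 i hir hv)
  | ex C x ds ys =>
    simp only [valid, Bool.and_eq_true, lt_iff] at hv
    obtain ⟨hx, hz⟩ := hv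
    have hx' : x < 2 * c.r := hx
    have hz' := testBit_of_land (Nat.eq_of_beq_eq_true hz)
    rw [testBit_lor, testBit_lor, Bool.or_eq_false_iff, Bool.or_eq_false_iff] at hz'
    rw [expd, exists_cons, exists_cons, tr_false, tr_false, Cx.sem_vP, Cx.sem_vP]
    by_cases h1 : c.P (c.nm (Nat.lor (bt x) (Nat.lor C (msk ds))))
    · by_cases h2 : c.P (c.nm (Nat.lor C (msk ys)))
      · right; right
        rw [c.nm_or_bt _ _ hx'] at h1
        have hxn : c.ρ x ∉ c.nm (Nat.lor C (msk ds)) := by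
          rw [c.rho_mem_nm _ hx', testBit_lor, hz'.1, hz'.2.1]; simp
        have hxn' : c.ρ x ∉ c.nm (Nat.lor C (msk ys)) := by
          rw [c.rho_mem_nm _ hx', testBit_lor, hz'.1, hz'.2.2]; simp
        obtain ⟨e, he, heS, h3, -⟩ := c.exch _ _ h1 h2 _ (Finset.mem_insert_self _ _) hxn'
        rw [Finset.erase_insert hxn] at h3
        rw [c.nm_or, Finset.mem_union] at he
        rw [Finset.mem_insert, c.nm_or, Finset.mem_union] at heS
        push Not at heS
        have he' := he.resolve_left heS.2.1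
        obtain ⟨y, hy, hyb, rfl⟩ := (c.mem_nm _ _).mp he'
        rw [testBit_msk] at hyb
        exact pl_sound c _ _ y hyb (by rw [c.nm_or_bt _ _ hy]; exact h3)
      · right; left; exact h2
    · left; exact h1
  | r0 =>
    rw [expd, exists_cons, tr_true, Cx.sem_vR]
    left
    refine ⟨0, ?_, ?_⟩
    · exact c.nm_zero
    · have : Nat.shiftLeft 0 c.r = 0 := Nat.zero_shiftLeft _
      rw [this]
      exact c.nm_zero
  | gd I J i j =>
    simp only [valid, Bool.and_eq_true, lt_iff] at hv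
    obtain ⟨⟨⟨⟨⟨hi, hj⟩, hI⟩, hJ⟩, hIf⟩, hJf⟩ := hv
    have hI := testBit_of_land (Nat.eq_of_beq_eq_true hI)
    have hJ := testBit_of_land (Nat.eq_of_beq_eq_true hJ)
    have hIf := Nat.eq_of_beq_eq_true hIf
    have hJf := Nat.eq_of_beq_eq_true hJf
    have key : ∀ (i I : ℕ), i < c.r → Nat.lor I (full c.r) = full c.r →
        Nat.lor (Nat.lor (bt i) I) (full c.r) = full c.r := by
      intro i I hi hI
      apply Nat.eq_of_testBit_eq
      intro j
      have h1 : (Nat.lor I (full c.r)).testBit j = (full c.r).testBit j := by rw [hI]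
      rw [testBit_lor, testBit_full] at h1
      rw [testBit_lor, testBit_lor, testBit_full, testBit_bt, Bool.or_assoc, h1, ← Bool.decide_or]
      congr 1
      rw [eq_iff_iff]
      omega
    simp only [expd, exists_cons, exists_nil, tr_true, tr_false, Cx.sem_vP, Cx.sem_vR,
      c.nm_so _ _ (key i I hi hIf) (key j J hj hJf), c.nm_so' _ _ (key i I hi hIf) (key j J hj hJf),
      c.shl_or_bt, c.nm_or_bt I i (by omega),
      c.nm_or_bt (Nat.shiftLeft J c.r) (c.r + j) (by omega)]
    by_cases h1 : ∃ m, GCh c.P c.B c.B' m (c.nm I) (c.nm (Nat.shiftLeft J c.r))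
    · by_cases h2 : c.P ((c.B \ insert (c.ρ i) (c.nm I)) ∪
          insert (c.ρ (c.r + j)) (c.nm (Nat.shiftLeft J c.r)))
      · by_cases h3 : c.P ((c.B' \ insert (c.ρ (c.r + j)) (c.nm (Nat.shiftLeft J c.r))) ∪
            insert (c.ρ i) (c.nm I))
        · right; right; right; left
          obtain ⟨m, hm⟩ := h1
          refine ⟨m + 1, ⟨h2, h3⟩, c.ρ i, Finset.mem_insert_self _ _, c.ρ (c.r + j),
            Finset.mem_insert_self _ _, ?_⟩
          rw [Finset.erase_insert, Finset.erase_insert]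
          · exact hm
          · rw [c.rho_mem_nm _ (by omega), testBit_shl]
            have : c.r + j - c.r = j := by omega
            rw [this, hJ]
            simp
          · rw [c.rho_mem_nm _ (by omega), hI]
            simp
        · right; right; left; exact h3
      · right; left; exact h2
    · left; exact h1
  | no I J K L =>
    simp only [valid, Bool.and_eq_true, List.any_eq_true] at hv
    obtain ⟨⟨⟨⟨⟨⟨h1, h2⟩, hI⟩, hJ⟩, hK⟩, hL⟩, ⟨q1, q2⟩, hq, hh, hh'⟩ := hv
    have h1 := Nat.eq_of_beq_eq_true h1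
    have h2 := Nat.eq_of_beq_eq_true h2
    have hI := Nat.eq_of_beq_eq_true hI
    have hJ := Nat.eq_of_beq_eq_true hJ
    have hK := Nat.eq_of_beq_eq_true hK
    have hL := Nat.eq_of_beq_eq_true hL
    have hh : pc I (2 * c.r) = q1 := Nat.eq_of_beq_eq_true hh
    have hh' : pc K (2 * c.r) = q2 := Nat.eq_of_beq_eq_true hh'
    simp only [expd, exists_cons, exists_nil, tr_false, Cx.sem_vR]
    by_contra hcon
    push Not at hcon
    obtain ⟨⟨m, hm⟩, ⟨m', hm'⟩, -⟩ := hcon
    have e1 := (gch_card _ _ _ hm).1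
    rw [card_nm, hh] at e1
    have e2 := (gch_card _ _ _ hm').1
    rw [card_nm, hh'] at e2
    subst e1
    subst e2
    exact c.nodd _ (nm_sub c hI) _ (nm_sub c hK) _ (nm_sub' c hJ) _ (nm_sub' c hL)
      (nm_disj c h1) (nm_disj c (shl_disj c h2)) _ hq hm hm'
  | ty k J =>
    simp only [valid, Bool.and_eq_true] at hv
    obtain ⟨⟨hk2, hJ⟩, hk⟩ := hv
    have hk2 := Nat.le_of_ble_eq_true hk2
    have hJ := Nat.eq_of_beq_eq_true hJ
    have hk : pc (Nat.shiftLeft J c.r) (2 * c.r) = k := Nat.eq_of_beq_eq_true hk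
    obtain ⟨X, hX, m, hm⟩ := c.totV _ (nm_sub' c hJ) (by rw [card_nm, hk]; exact hk2)
    have h1 := gch_card _ _ _ hm
    have h2 : X.card = k := by rw [h1.1, ← h1.2, card_nm, hk]
    obtain ⟨I, hI, rfl⟩ := exists_nm c hX h2
    refine ⟨(true, vR I J), List.mem_map.mpr ⟨I, hI, rfl⟩, ?_⟩
    rw [tr_true, Cx.sem_vR]
    exact ⟨m, hm⟩
  | tx k I =>
    simp only [valid, Bool.and_eq_true] at hv
    obtain ⟨⟨hk2, hI⟩, hk⟩ := hv
    have hk2 := Nat.le_of_ble_eq_true hk2
    have hI := Nat.eq_of_beq_eq_true hI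
    have hk : pc I (2 * c.r) = k := Nat.eq_of_beq_eq_true hk
    obtain ⟨V, hV, m, hm⟩ := c.totX _ (nm_sub c hI) (by rw [card_nm, hk]; exact hk2)
    have h1 := gch_card _ _ _ hm
    have h2 : V.card = k := by rw [h1.2, ← h1.1, card_nm, hk]
    obtain ⟨J, hJ, rfl⟩ := exists_nm' c hV h2
    refine ⟨(true, vR I J), List.mem_map.mpr ⟨J, hJ, rfl⟩, ?_⟩
    rw [tr_true, Cx.sem_vR]
    exact ⟨m, hm⟩
  | rg w I J =>
    simp only [valid, Bool.and_eq_true] at hv
    obtain ⟨hI, hJ⟩ := hv
    have hI := Nat.eq_of_beq_eq_true hI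
    have hJ := Nat.eq_of_beq_eq_true hJ
    simp only [expd, exists_cons, exists_nil, tr_true, tr_false, Cx.sem_vP, Cx.sem_vR]
    by_cases h1 : ∃ m, GCh c.P c.B c.B' m (c.nm I) (c.nm (Nat.shiftLeft J c.r))
    · right; left
      obtain ⟨m, hm⟩ := h1
      have h2 := good_of_gch (B := c.B) (B' := c.B') c.b0 c.b1 hm
      cases Nat.beq w 0 with
      | true =>
        rw [cond_true, c.nm_so _ _ hI hJ]
        exact h2.1
      | false =>
        rw [cond_false, c.nm_so' _ _ hI hJ]
        exact h2.2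
    · left; exact h1
  | rl is js =>
    simp only [valid, Bool.and_eq_true, List.all_eq_true, lt_iff] at hv
    obtain ⟨⟨h1, h2⟩, h3⟩ := hv
    have h1 := Nat.le_of_ble_eq_true h1
    rw [expd, exists_cons, tr_false, Cx.sem_vR]
    by_cases h4 : ∃ m, GCh c.P c.B c.B' m (c.nm (msk is)) (c.nm (Nat.shiftLeft (msk js) c.r))
    · right
      obtain ⟨m, hm⟩ := h4
      obtain ⟨i₀, hi₀⟩ := List.exists_mem_of_length_pos (show 0 < is.length by omega)
      have hi₀r : i₀ < c.r := h2 i₀ hi₀
      have h5 : c.ρ i₀ ∈ c.nm (msk is) := by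
        rw [c.rho_mem_nm _ (show i₀ < 2 * c.r by omega), testBit_msk]
        exact hi₀
      cases m with
      | zero =>
        rw [hm.1] at h5
        exact absurd h5 (Finset.notMem_empty _)
      | succ m =>
        obtain ⟨-, x, hx, v, hv, hm⟩ := hm
        obtain ⟨i, hi, hib, rfl⟩ := (c.mem_nm _ _).mp hx
        obtain ⟨k, hk, hkb, rfl⟩ := (c.mem_nm _ _).mp hv
        rw [← nm_xor_bt c _ _ hi hib, ← nm_xor_bt c _ _ hk hkb] at hm
        rw [testBit_shl, Bool.and_eq_true, decide_eq_true_eq] at hkb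
        have hk2 : k = c.r + (k - c.r) := by omega
        rw [hk2, ← shl_xor_bt] at hm
        rw [testBit_msk] at hib
        rw [testBit_msk] at hkb
        refine ⟨_, List.mem_map.mpr ⟨(i, k - c.r), ?_, rfl⟩, ?_⟩
        · exact List.mem_product.mpr ⟨hib, hkb.2⟩
        · rw [tr_true, Cx.sem_vR]
          exact ⟨m, hm⟩
    · left; exact h4
  | g1 T =>
    simp only [expd, exists_cons, exists_nil, tr_true, tr_false, Cx.sem_vP, Cx.sem_vG]
    tauto
  | g2 T =>
    simp only [expd, exists_cons, exists_nil, tr_true, tr_false, Cx.sem_vP, Cx.sem_vG]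
    tauto
  | g3 T =>
    simp only [expd, exists_cons, exists_nil, tr_true, tr_false, Cx.sem_vP, Cx.sem_vG]
    tauto
  | gr I J =>
    simp only [valid, Bool.and_eq_true] at hv
    obtain ⟨hI, hJ⟩ := hv
    have hI := Nat.eq_of_beq_eq_true hI
    have hJ := Nat.eq_of_beq_eq_true hJ
    simp only [expd, exists_cons, exists_nil, tr_true, tr_false, Cx.sem_vG, Cx.sem_vR]
    by_cases h1 : ∃ m, GCh c.P c.B c.B' m (c.nm I) (c.nm (Nat.shiftLeft J c.r))
    · right; left
      obtain ⟨m, hm⟩ := h1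
      have h2 := good_of_gch (B := c.B) (B' := c.B') c.b0 c.b1 hm
      rw [nm_so_xor c I J hI hJ, c.nm_so _ _ hI hJ, c.nm_so' _ _ hI hJ]
      exact h2
    · left; exact h1
  | sx T e fs =>
    simp only [valid, Bool.and_eq_true, lt_iff] at hv
    obtain ⟨⟨he, hTe⟩, hfs⟩ := hv
    have he : e < 2 * c.r := he
    have hTe := testBit_of_land' (Nat.eq_of_beq_eq_true hTe)
    have hfs := Nat.eq_of_beq_eq_true hfs
    rw [expd, exists_cons, tr_false, Cx.sem_vG]
    by_cases h4 : c.P (c.nm T) ∧ c.P (c.nm (Nat.xor T (full (Nat.mul 2 c.r))))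
    · right
      obtain ⟨h5, h6⟩ := h4
      have h7 : c.ρ e ∈ c.nm T := by
        rw [c.rho_mem_nm _ he]; exact hTe
      have h8 : c.ρ e ∉ c.nm (Nat.xor T (full (Nat.mul 2 c.r))) := by
        rw [c.rho_mem_nm _ he, testBit_xor', testBit_full, hTe]
        have : decide (e < Nat.mul 2 c.r) = true := decide_eq_true he
        rw [this]
        simp
      obtain ⟨f, hf, hfT, h9, h10⟩ := c.exch _ _ h5 h6 _ h7 h8
      obtain ⟨k, hk, hkb, rfl⟩ := (c.mem_nm _ _).mp hf
      have hTk : T.testBit k = false := by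
        rw [c.rho_mem_nm _ hk] at hfT
        simpa using hfT
      have hkfs : k ∈ fs := by
        rw [← testBit_msk, hfs]
        exact hkb
      refine ⟨_, List.mem_map.mpr ⟨k, hkfs, rfl⟩, ?_⟩
      rw [tr_true, Cx.sem_vG, xor_exch c T e k he hk hTe hTk, c.nm_or_bt _ _ hk,
        nm_xor_bt c _ _ he hTe, c.nm_or_bt _ _ he, nm_xor_bt c _ _ hk hkb]
      exact ⟨h9, h10⟩
    · left; exact h4
  | ud I J i j y =>
    simp only [valid, Bool.and_eq_true, lt_iff, Bool.or_eq_true] at hv
    obtain ⟨⟨⟨⟨⟨⟨hi, hj⟩, hI⟩, hJ⟩, -⟩, -⟩, hy⟩ := hv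
    have hI := testBit_of_land' (Nat.eq_of_beq_eq_true hI)
    have hJ := testBit_of_land' (Nat.eq_of_beq_eq_true hJ)
    have hJ' : (Nat.shiftLeft J c.r).testBit (c.r + j) = true := by
      rw [testBit_shl, Nat.add_sub_cancel_left, hJ]
      simp
    simp only [expd, exists_cons, exists_nil, tr_true, tr_false, Cx.sem_vR, Cx.sem_vU]
    by_cases h1 : ∃ m, GCh c.P c.B c.B' m (c.nm I) (c.nm (Nat.shiftLeft J c.r))
    · by_cases h2 : ∃ m, GCh c.P c.B c.B' m (c.nm (Nat.xor I (bt i)))
          (c.nm (Nat.shiftLeft (Nat.xor J (bt j)) c.r))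
      · right; right; left
        obtain ⟨m, hm⟩ := h1
        obtain ⟨m', hm'⟩ := h2
        rw [shl_xor_bt, nm_xor_bt c _ _ (show i < 2 * c.r by omega) hI,
          nm_xor_bt c _ _ (show c.r + j < 2 * c.r by omega) hJ'] at hm'
        refine ⟨good_nm c hm, c.ρ i, ?_, c.ρ (c.r + j), ?_, ?_, m', hm'⟩
        · rw [c.rho_mem_nm _ (show i < 2 * c.r by omega)]; exact hI
        · rw [c.rho_mem_nm _ (show c.r + j < 2 * c.r by omega)]; exact hJ'
        · rcases hy with hy | hy
          · left; rw [Nat.eq_of_beq_eq_true hy]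
          · right
            have hy : y = c.r + j := Nat.eq_of_beq_eq_true hy
            rw [hy]
      · right; left; exact h2
    · left; exact h1
  | wd I J i j y =>
    simp only [valid, Bool.and_eq_true, lt_iff] at hv
    obtain ⟨⟨⟨⟨⟨hi, hj⟩, hI⟩, hJ⟩, -⟩, -⟩ := hv
    have hI := testBit_of_land' (Nat.eq_of_beq_eq_true hI)
    have hJ := testBit_of_land' (Nat.eq_of_beq_eq_true hJ)
    have hJ' : (Nat.shiftLeft J c.r).testBit (c.r + j) = true := by
      rw [testBit_shl, Nat.add_sub_cancel_left, hJ]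
      simp
    simp only [expd, exists_cons, exists_nil, tr_true, tr_false, Cx.sem_vR, Cx.sem_vU, Cx.sem_vW]
    by_cases h1 : ∃ m, GCh c.P c.B c.B' m (c.nm I) (c.nm (Nat.shiftLeft J c.r))
    · by_cases h2 : LastE c.P c.B c.B' (c.nm (Nat.xor I (bt i)))
          (c.nm (Nat.shiftLeft (Nat.xor J (bt j)) c.r)) (c.ρ y)
      · right; right; left
        obtain ⟨m, hm⟩ := h1
        rw [shl_xor_bt, nm_xor_bt c _ _ (show i < 2 * c.r by omega) hI,
          nm_xor_bt c _ _ (show c.r + j < 2 * c.r by omega) hJ'] at h2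
        refine ⟨good_nm c hm, c.ρ i, ?_, c.ρ (c.r + j), ?_, h2⟩
        · rw [c.rho_mem_nm _ (show i < 2 * c.r by omega)]; exact hI
        · rw [c.rho_mem_nm _ (show c.r + j < 2 * c.r by omega)]; exact hJ'
      · right; left; exact h2
    · left; exact h1
  | nu I J K L y =>
    simp only [expd, exists_cons, exists_nil, tr_false, Cx.sem_vU]
    by_contra hcon
    push Not at hcon
    exact no_cfg c hv hcon.2.1 (Or.inl ⟨rfl, hcon.1⟩)
  | nw I J K L y =>
    simp only [expd, exists_cons, exists_nil, tr_false, Cx.sem_vU, Cx.sem_vW]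
    by_contra hcon
    push Not at hcon
    exact no_cfg c hv hcon.2.1 (Or.inr (Or.inl ⟨rfl, hcon.1⟩))
  | nr I J K L y =>
    simp only [expd, exists_cons, exists_nil, tr_false, Cx.sem_vU, Cx.sem_vR]
    by_contra hcon
    push Not at hcon
    exact no_cfg c hv hcon.2.1 (Or.inr (Or.inr ⟨rfl, hcon.1⟩))
  | pu T =>
    simp only [valid, List.any_eq_true] at hv
    obtain ⟨T', hT', h1⟩ := hv
    have h1 := Nat.eq_of_beq_eq_true h1
    subst h1
    rw [expd, exists_cons, tr_true, Cx.sem_vP]
    exact Or.inl (c.hls _ hT')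
  | nd T U =>
    simp only [valid, List.any_eq_true, Bool.and_eq_true] at hv
    obtain ⟨⟨T', U'⟩, hT', h1, h2⟩ := hv
    have h1 := Nat.eq_of_beq_eq_true h1
    have h2 := Nat.eq_of_beq_eq_true h2
    subst h1
    subst h2
    simp only [expd, exists_cons, exists_nil, tr_false, Cx.sem_vP]
    by_contra hcon
    push Not at hcon
    exact c.hns _ hT' hcon.1 hcon.2.1

end

theorem pl_length (T : ℕ) (ys : List ℕ) : (pl T ys).length = ys.length := by
  induction ys with
  | nil => rfl
  | cons y ys ih =>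
    change ((true, vP (Nat.lor (bt y) T)) :: pl T ys).length = _
    rw [List.length_cons, List.length_cons, ih]

/-- the length of the clause is small -/
noncomputable def short (r : ℕ) : Ax → Bool
  | .ex _ _ _ ys => Nat.ble ys.length 90
  | .ty k _ => Nat.ble (subs r k).length 90
  | .tx k _ => Nat.ble (subs r k).length 90
  | .rl is js => Nat.ble (Nat.mul is.length js.length) 90
  | .sx _ _ fs => Nat.ble fs.length 90
  | _ => true

theorem expd_length (r : ℕ) (ax : Ax) (h : short r ax = true) : (expd r ax).length ≤ 100 := by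
  cases ax with
  | sx T e fs =>
    simp only [short] at h
    have h' := Nat.le_of_ble_eq_true h
    rw [expd, List.length_cons, List.length_map]
    omega
  | rl is js =>
    simp only [short] at h
    have h' : is.length * js.length ≤ 90 := Nat.le_of_ble_eq_true h
    rw [expd, List.length_cons, List.length_map]
    have h2 : (is.product js).length = is.length * js.length := List.length_product is js
    omega
  | ty k J =>
    simp only [short] at h
    have h' := Nat.le_of_ble_eq_true h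
    rw [expd, List.length_map]
    omega
  | tx k J =>
    simp only [short] at h
    have h' := Nat.le_of_ble_eq_true h
    rw [expd, List.length_map]
    omega
  | ex C x ds ys =>
    simp only [short] at h
    have h' := Nat.le_of_ble_eq_true h
    simp only [expd, List.length_cons, pl_length]
    omega
  | _ => simp only [expd, List.length_cons, List.length_nil]; omega

/-- checks axiom clauses with numbers from `s` to `e` -/
noncomputable def axchk (p : Par) (vt : ℕ → VC) (G : ℕ → ℕ) (L : List Ax)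
    (e : ℕ) : ℕ → Bool :=
  List.rec (fun i => Nat.beq i e)
    (fun ax _ ih i => cond (valid p ax && short p.r ax)
      (cond (same vt (expd p.r ax) (G i)) (force (Nat.succ i) ih) false) false) L

/-- the clauses with numbers between `s` and `e` are satisfied -/
def AllSat (v : ℕ → Prop) (G : ℕ → ℕ) (s e : ℕ) : Prop :=
  ∀ i, s ≤ i → i < e → SatM v (mask 100 (G i))

theorem AllSat.trans {v : ℕ → Prop} {G : ℕ → ℕ} {s m e : ℕ} (h1 : AllSat v G s m)
    (h2 : AllSat v G m e) : AllSat v G s e := fun i hi hi' => by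
  rcases Nat.lt_or_ge i m with h | h
  · exact h1 i hi h
  · exact h2 i h hi'

theorem axchk_sound {α : Type*} [DecidableEq α] (c : Cx α) {p : Par} (hp : c.toPar = p) (vt : ℕ → VC) (G : ℕ → ℕ) (L : List Ax) (e : ℕ) :
    ∀ s, axchk p vt G L e s = true → AllSat (fun i => c.sem (vt i)) G s e := by
  induction L with
  | nil =>
    intro s h i hi hi'
    have : s = e := Nat.eq_of_beq_eq_true h
    omega
  | cons ax L ih =>
    intro s h i hi hi'
    change cond (valid p ax && short p.r ax)
      (cond (same vt (expd p.r ax) (G s)) (force (Nat.succ s) (axchk p vt G L e)) false)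
        false = true at h
    rw [force_eq] at h
    cases h1 : (valid p ax && short p.r ax) with
    | false => rw [h1] at h; exact absurd h (by simp)
    | true =>
      rw [h1, cond_true] at h
      rw [Bool.and_eq_true] at h1
      cases h2 : same vt (expd p.r ax) (G s) with
      | false => rw [h2] at h; exact absurd h (by simp)
      | true =>
        rw [h2, cond_true] at h
        rcases Nat.lt_or_ge s i with h3 | h3
        · exact ih (s + 1) h i h3 hi'
        · have : i = s := by omega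
          subst this
          have h4 := ax_sound c ax (by rw [hp]; exact h1.1)
          rw [hp] at h4
          exact same_sound vt c.sem _ _ _ (expd_length p.r ax h1.2) h2 h4

theorem chk_sound' {v : ℕ → Prop} {G H : ℕ → ℕ} {cnt s e : ℕ} (h : chk G H cnt s = true)
    (he : s + cnt = e) (h0 : AllSat v G 0 s) : AllSat v G 0 e := fun i _ hi => by
  subst he
  exact chk_sound v G H cnt s h (fun j hj => h0 j (Nat.zero_le _) hj) i hi

theorem AllSat.false {v : ℕ → Prop} {G : ℕ → ℕ} {e : ℕ} (h : AllSat v G 0 (e + 1))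
    (he : G e = 0) : False := no_sat_zero v G e he (h e (Nat.zero_le _) (Nat.lt_succ_self _))

end Pool.Agent.Gab7c_h87
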