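import Pool.Agent.H33Down.Down87
import Pool.Agent.Gab7c_h87.Seven
import Pool.Agent.Gab7c_h87.CBq.Bad
import Pool.Agent.Gab7c_h87.CA2.Bad
import Pool.Agent.Gab7c_h87.CY2.Bad
import Pool.Agent.Gab7c_h87.CY1.Bad
import Pool.Agent.Gab7c_h87.CY0.Bad

/-!
# Rank at most seven
-/

set_option autoImplicit false

namespace Pool.Agent.Gab7c_h87

open Pool.Agent.Gabow87

/-- **Gabow's conjecture in rank seven.** -/
theorem gabow_7 {α : Type*} (M : Matroid α) (b b' : Fin 7 → α)
    (hb : Function.Injective b) (hb' : Function.Injective b')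
    (hB : M.IsBase (Set.range b)) (hB' : M.IsBase (Set.range b')) :
    ∃ σ σ' : Equiv.Perm (Fin 7), ∀ i : Fin (7 + 7), M.IsBase (block (b ∘ σ) (b' ∘ σ') i) :=
  gabow_seven M b b' hb hb' hB hB' (fun c h => CY2.bad c h) (fun c h => CY1.bad c h)
    (fun c h => CY0.bad c h) (fun c h => CA2.bad c h) (fun c h => CBq.bad c h)

/-- **Gabow's conjecture in rank at most seven.** -/
theorem gabow_le_seven {α : Type*} (M : Matroid α) {r : ℕ} (hr : r ≤ 7) (b b' : Fin r → α)
    (hb : Function.Injective b) (hb' : Function.Injective b')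
    (hB : M.IsBase (Set.range b)) (hB' : M.IsBase (Set.range b')) :
    ∃ σ σ' : Equiv.Perm (Fin r), ∀ i : Fin (r + r), M.IsBase (block (b ∘ σ) (b' ∘ σ') i) :=
  Pool.Agent.H33Down.down87 hr (fun M b b' h1 h2 h3 h4 => gabow_7 M b b' h1 h2 h3 h4) M b b'
    hb hb' hB hB'

end Pool.Agent.Gab7c_h87
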