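import Pool.Agent.Gab7c_h87.Sym

/-!
# The naming for the certificates with a third node
-/

set_option autoImplicit false

namespace Pool.Agent.Gab7c_h87

open Pool.Agent.Gabow87

/-- marks of the two sets of the node `({3, 5, 6}, {k, 5, 6})` -/
def lsk : ℕ → List ℕ
  | 0 => [12439, 3944]
  | 1 => [12567, 3816]
  | _ => [12823, 3560]

theorem no_node {α : Type*} [DecidableEq α] {P : Finset α → Prop} (hP : SymExch P)
    {B B' : Finset α} (hB : P B) (hB' : P B') (hd : Disjoint B B') (hs : List (ℕ × ℕ))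
    (cs : List ℕ) (hno : NoD hs P B B') (hcs : ∀ j ∈ cs, ¬ Cfg j P B B')
    (x0 x1 x2 x3 x4 x5 x6 y0 y1 y2 y3 y4 y5 y6 : α)
    (eB : B = {x0, x1, x2, x3, x4, x5, x6}) (eB' : B' = {y0, y1, y2, y3, y4, y5, y6})
    (hn : [x0, x1, x2, x3, x4, x5, x6, y0, y1, y2, y3, y4, y5, y6].Nodup)
    (g1 : Good P B B' {x0} {y0}) (g2 : Good P B B' {x0, x1} {y0, y1})
    (g3 : Good P B B' {x0, x1, x2} {y0, y1, y2})
    (g4 : P ((B \ {x0, x1, x2, x3}) ∪ {y0, y1, y2, y3}))
    (g5 : Good P B B' {x5, x6} {y5, y6}) (g6 : Good P B B' {x6} {y6})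
    (k : ℕ) (hk : k < 3) (gx : Good P B B' {x3, x5, x6} {[y0, y1, y2].getD k y0, y5, y6})
    (bad : ∀ c : Cx α, c.toPar = ⟨7, 127, 55, hs, lsk k, [], cs⟩ → False) : False := by
  obtain ⟨l, hl⟩ : ∃ l, l = [x0, x1, x2, x3, x4, x5, x6, y0, y1, y2, y3, y4, y5, y6] := ⟨_, rfl⟩
  rw [← hl] at hn
  have hlen : l.length = 14 := by rw [hl]; rfl
  obtain ⟨ρ, hρ⟩ : ∃ ρ : ℕ → α, ρ = fun i => l.getD i x0 := ⟨_, rfl⟩
  have hinj : ∀ i < 14, ∀ j < 14, ρ i = ρ j → i = j := by
    intro i hi j hj h
    rw [hρ] at h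
    exact getD_inj l x0 hn i j (by omega) (by omega) h
  have r0 : ρ 0 = x0 := by rw [hρ, hl]; rfl
  have r1 : ρ 1 = x1 := by rw [hρ, hl]; rfl
  have r2 : ρ 2 = x2 := by rw [hρ, hl]; rfl
  have r3 : ρ 3 = x3 := by rw [hρ, hl]; rfl
  have r4 : ρ 4 = x4 := by rw [hρ, hl]; rfl
  have r5 : ρ 5 = x5 := by rw [hρ, hl]; rfl
  have r6 : ρ 6 = x6 := by rw [hρ, hl]; rfl
  have r7 : ρ 7 = y0 := by rw [hρ, hl]; rfl
  have r8 : ρ 8 = y1 := by rw [hρ, hl]; rfl
  have r9 : ρ 9 = y2 := by rw [hρ, hl]; rfl
  have r10 : ρ 10 = y3 := by rw [hρ, hl]; rfl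
  have r11 : ρ 11 = y4 := by rw [hρ, hl]; rfl
  have r12 : ρ 12 = y5 := by rw [hρ, hl]; rfl
  have r13 : ρ 13 = y6 := by rw [hρ, hl]; rfl
  have e0 : (Finset.range 7).image ρ = B := by
    have : Finset.range 7 = {0, 1, 2, 3, 4, 5, 6} := by decide
    rw [this, eB]
    simp only [Finset.image_insert, Finset.image_singleton, r0, r1, r2, r3, r4, r5, r6]
  have e1 : (Finset.Ico 7 14).image ρ = B' := by
    have : Finset.Ico 7 14 = {7, 8, 9, 10, 11, 12, 13} := by decide
    rw [this, eB']
    simp only [Finset.image_insert, Finset.image_singleton, r7, r8, r9, r10, r11, r12, r13]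
  have sh : ∀ k ≤ 7, ((Finset.range k).image fun i => ρ (7 + i)) =
      (Finset.Ico 7 (7 + k)).image ρ := by
    intro k _
    ext t
    simp only [Finset.mem_image, Finset.mem_range, Finset.mem_Ico]
    constructor
    · rintro ⟨n, hn, rfl⟩
      exact ⟨7 + n, ⟨by omega, by omega⟩, rfl⟩
    · rintro ⟨n, ⟨hn, hn'⟩, rfl⟩
      exact ⟨n - 7, by omega, by congr 1; omega⟩
  have e1' : ((Finset.range 7).image fun i => ρ (7 + i)) = B' := by rw [sh 7 le_rfl, e1]
  have f1 := good_im hinj e0 e1 {0} {7} (by decide) (by decide) (by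
    simp only [Finset.image_singleton, r0, r7]; exact g1)
  have f2 := good_im hinj e0 e1 {0, 1} {7, 8} (by decide) (by decide) (by
    simp only [Finset.image_insert, Finset.image_singleton, r0, r1, r7, r8]; exact g2)
  have f3 := good_im hinj e0 e1 {0, 1, 2} {7, 8, 9} (by decide) (by decide) (by
    simp only [Finset.image_insert, Finset.image_singleton, r0, r1, r2, r7, r8, r9]; exact g3)
  have f5 := good_im hinj e0 e1 {5, 6} {12, 13} (by decide) (by decide) (by
    simp only [Finset.image_insert, Finset.image_singleton, r5, r6, r12, r13]; exact g5)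
  have f6 := good_im hinj e0 e1 {6} {13} (by decide) (by decide) (by
    simp only [Finset.image_singleton, r6, r13]; exact g6)
  have f4 : P ((Finset.range 7 \ {0, 1, 2, 3} ∪ {7, 8, 9, 10} : Finset ℕ).image ρ) := by
    have h1 : ({x0, x1, x2, x3} : Finset α) = ({0, 1, 2, 3} : Finset ℕ).image ρ := by
      simp only [Finset.image_insert, Finset.image_singleton, r0, r1, r2, r3]
    have h2 : ({y0, y1, y2, y3} : Finset α) = ({7, 8, 9, 10} : Finset ℕ).image ρ := by
      simp only [Finset.image_insert, Finset.image_singleton, r7, r8, r9, r10]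
    rw [h1, h2, ← e0, sd hinj (by decide) (by decide), ← Finset.image_union] at g4
    exact g4
  have fx : P ((Finset.range 7 \ {3, 5, 6} ∪ {7 + k, 12, 13} : Finset ℕ).image ρ) ∧
      P ((Finset.Ico 7 14 \ {7 + k, 12, 13} ∪ {3, 5, 6} : Finset ℕ).image ρ) := by
    refine good_im hinj e0 e1 {3, 5, 6} {7 + k, 12, 13} (by decide) ?_ ?_
    · intro t ht
      simp only [Finset.mem_insert, Finset.mem_singleton] at ht
      rw [Finset.mem_range]
      omega
    · have h7 : ρ (7 + k) = [y0, y1, y2].getD k y0 := by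
        interval_cases k
        · exact r7
        · exact r8
        · exact r9
      simp only [Finset.image_insert, Finset.image_singleton, r3, r5, r6, h7, r12, r13]
      exact gx
  have cast : ∀ {S T : Finset ℕ}, P (S.image ρ) → S = T → P (T.image ρ) := by
    intro S T h h'
    exact h' ▸ h
  refine bad ⟨⟨7, 127, 55, hs, lsk k, [], cs⟩, ρ, P, hinj, ?_, ?_, ?_, ?_, ?_, ?_, ?_, ?_, ?_,
    ?_, ?_⟩ rfl
  · intro S T hS hT x hx hxT
    obtain ⟨e, he, heS, h2, h1⟩ := hP T S hT hS x hx hxT
    exact ⟨e, he, heS, h1, h2⟩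
  · rw [e0]; exact hB
  · change P ((Finset.range 7).image fun i => ρ (7 + i))
    rw [e1']; exact hB'
  · intro i hi _
    change i < 7 at hi
    change P ((Finset.range 7).image ρ \ (Finset.range (i + 1)).image ρ ∪
      (Finset.range (i + 1)).image fun i => ρ (7 + i))
    rw [sh (i + 1) (by omega), sd hinj (by decide) (by
      intro t ht; rw [Finset.mem_range] at ht ⊢; omega), ← Finset.image_union]
    interval_cases i
    · exact cast f1.1 (by decide)
    · exact cast f2.1 (by decide)
    · exact cast f3.1 (by decide)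
    · exact cast f4 (by decide)
    · exact cast f5.2 (by decide)
    · exact cast f6.2 (by decide)
    · rw [← e1] at hB'
      exact cast hB' (by decide)
  · intro i hi hm
    change i < 7 at hi
    change (55 : ℕ).testBit i = true at hm
    change P (((Finset.range 7).image fun i => ρ (7 + i)) \
      ((Finset.range (i + 1)).image fun i => ρ (7 + i)) ∪ (Finset.range (i + 1)).image ρ)
    rw [sh (i + 1) (by omega), sh 7 le_rfl, sd hinj (by decide) (by
      intro t ht; rw [Finset.mem_Ico] at ht; rw [Finset.mem_range]; omega),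
      ← Finset.image_union]
    interval_cases i
    · exact cast f1.2 (by decide)
    · exact cast f2.2 (by decide)
    · exact cast f3.2 (by decide)
    · simp [Nat.testBit] at hm
    · exact cast f5.1 (by decide)
    · exact cast f6.1 (by decide)
    · simp [Nat.testBit] at hm
  · intro T hT
    change T ∈ lsk k at hT
    change P (((Finset.range 14).filter fun i => T.testBit i = true).image ρ)
    interval_cases k
    · simp only [lsk, List.mem_cons, List.not_mem_nil, or_false] at hT
      rcases hT with rfl | rfl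
      · exact cast fx.1 (by decide)
      · exact cast fx.2 (by decide)
    · simp only [lsk, List.mem_cons, List.not_mem_nil, or_false] at hT
      rcases hT with rfl | rfl
      · exact cast fx.1 (by decide)
      · exact cast fx.2 (by decide)
    · simp only [lsk, List.mem_cons, List.not_mem_nil, or_false] at hT
      rcases hT with rfl | rfl
      · exact cast fx.1 (by decide)
      · exact cast fx.2 (by decide)
  · intro q hq
    exact absurd hq (by simp)
  · intro j hj
    change ¬ Cfg j P ((Finset.range 7).image ρ) ((Finset.range 7).image fun i => ρ (7 + i))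
    rw [e0, e1']
    exact hcs j hj
  · change ∀ V ⊆ (Finset.range 7).image fun i => ρ (7 + i), _
    rw [e0, e1']
    exact totV hP hB hB' hd
  · change ∀ V ⊆ (Finset.range 7).image ρ, V.card ≤ 2 →
      ∃ W ⊆ (Finset.range 7).image fun i => ρ (7 + i), ∃ m, GCh P ((Finset.range 7).image ρ)
      ((Finset.range 7).image fun i => ρ (7 + i)) m V W
    rw [e0, e1']
    exact totX hP hB hB' hd
  · have := hno
    unfold NoD at this
    rw [← e0, ← e1'] at this
    exact this

end Pool.Agent.Gab7c_h87
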