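import Mathlib

/-!
# A small checker of clausal proofs, written for evaluation by the kernel

A clause is a natural number whose digits to the base `16384`, diminished by one, are the codes
of its literals; the literal with code `2 i` is the variable `i`, the literal with code `2 i + 1`
its negation. A set of literals is also represented by a number whose binary digit with number
`j + 1` marks the literal with code `j` (the digit with number `0` is arbitrary).
-/

set_option autoImplicit false

namespace Pool.Agent.Gab7c_h87.Sat

/-- binary trees as tables -/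
inductive Tr (β : Type) where
  | nil : Tr β
  | leaf : β → Tr β
  | node : Tr β → Tr β → Tr β

/-- table lookup -/
noncomputable def Tr.get {β : Type} (d : β) (t : Tr β) : Nat → β :=
  Tr.rec (fun _ => d) (fun b _ => b)
    (fun _ _ gl gr i => Bool.rec (gr (Nat.div i (nat_lit 2))) (gl (Nat.div i (nat_lit 2)))
      (Nat.beq (Nat.mod i (nat_lit 2)) (nat_lit 0))) t

/-- binary digits mark the literals of the clause `c`; four digits at a time -/
noncomputable def mask (fuel : Nat) : Nat → Nat :=
  Nat.rec (fun _ => (nat_lit 0))
    (fun _ ih c => Bool.rec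
      (Nat.lor (Nat.lor
        (Nat.lor (Nat.shiftLeft (nat_lit 1) (Nat.mod c (nat_lit 16384)))
          (Nat.shiftLeft (nat_lit 1) (Nat.mod (Nat.div c (nat_lit 16384)) (nat_lit 16384))))
        (Nat.lor
          (Nat.shiftLeft (nat_lit 1) (Nat.mod (Nat.div c (nat_lit 268435456)) (nat_lit 16384)))
          (Nat.shiftLeft (nat_lit 1)
            (Nat.mod (Nat.div c (nat_lit 4398046511104)) (nat_lit 16384)))))
        (ih (Nat.div c (nat_lit 72057594037927936))))
      (nat_lit 0) (Nat.beq c (nat_lit 0))) fuel

/-- forces the evaluation of the first argument -/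
noncomputable def force (n : Nat) (k : Nat → Bool) : Bool :=
  Nat.rec (k 0) (fun m _ => k (Nat.succ m)) n

theorem force_eq (n : Nat) (k : Nat → Bool) : force n k = k n := by
  cases n <;> rfl

theorem rec_eq {α : Type} (b : Bool) (x y : α) : @Bool.rec (fun _ => α) y x b = cond b x y := by
  cases b <;> rfl

/-- Unit propagation along the hints `h`, starting from the set `F` of falsified literals, ends in
a conflict. The digits of `h` to the base `2 ^ 32` are `i + 1 + 262144 * j`, where `i` is the
number of a clause and `j` the code of the literal that it yields. -/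
noncomputable def rup (G : Nat → Nat) (lim : Nat) (fuel : Nat) : Nat → Nat → Bool :=
  Nat.rec (fun _ _ => false)
    (fun _ ih F h =>
      force (Nat.mod h (nat_lit 262144)) fun i =>
      force (Nat.mod (Nat.div h (nat_lit 262144)) (nat_lit 16384)) fun j =>
      Bool.rec false
        (Bool.rec
          (Bool.rec false
            (force (Nat.div h (nat_lit 4294967296)) fun h' =>
              ih (Nat.lor F (Nat.shiftLeft (nat_lit 1) (Nat.succ (Nat.xor j (nat_lit 1))))) h')
            (Nat.beq (Nat.xor (Nat.lor (mask 100 (G (Nat.sub i (nat_lit 1)))) F) F)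
              (Nat.shiftLeft (nat_lit 1) (Nat.succ j))))
          true
          (Nat.beq (Nat.xor (Nat.lor (mask 100 (G (Nat.sub i (nat_lit 1)))) F) F) (nat_lit 0)))
        (Nat.ble (Nat.succ (Nat.sub i (nat_lit 1))) lim)) fuel

/-- checks `cnt` clauses, the first of which has number `s` -/
noncomputable def chk (G H : Nat → Nat) (cnt : Nat) : Nat → Bool :=
  Nat.rec (fun _ => true)
    (fun _ ih s => Bool.rec false (force (Nat.succ s) ih)
      (rup G s (nat_lit 800) (Nat.lor (nat_lit 1) (mask 100 (G s))) (H s))) cnt

/-- the literal with code `j` is true -/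
def litTrue (v : Nat → Prop) (j : Nat) : Prop := (j % 2 = 0 ∧ v (j / 2)) ∨ (j % 2 = 1 ∧ ¬ v (j / 2))

theorem litTrue_neg (v : Nat → Prop) (j : Nat) :
    litTrue v (Nat.xor j (nat_lit 1)) ↔ ¬ litTrue v j := by
  have h1 : (j ^^^ 1) % 2 = (j + 1) % 2 := Nat.xor_mod_two_eq
  have h2 : (j ^^^ 1) / 2 = j / 2 := by
    rw [Nat.xor_div_two]
    simp
  change litTrue v (j ^^^ 1) ↔ ¬ litTrue v j
  unfold litTrue
  rw [h1, h2]
  rcases Nat.mod_two_eq_zero_or_one j with h | h
  · have : (j + 1) % 2 = 1 := by omega
    rw [this, h]
    tauto
  · have : (j + 1) % 2 = 0 := by omega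
    rw [this, h]
    tauto

/-- a literal marked by `C` is true -/
def SatM (v : Nat → Prop) (C : Nat) : Prop := ∃ j, C.testBit (j + 1) = true ∧ litTrue v j

theorem testBit_one_shiftLeft' (j i : Nat) : (1 <<< j).testBit i = decide (j = i) := by
  rw [Nat.one_shiftLeft, Nat.testBit_two_pow]

theorem rup_succ (G : Nat → Nat) (lim n F h : Nat) : rup G lim (n + 1) F h =
    bif Nat.ble ((h % 262144) - 1 + 1) lim then
      (bif Nat.beq ((mask 100 (G (h % 262144 - 1)) ||| F) ^^^ F) 0 then true
      else bif Nat.beq ((mask 100 (G (h % 262144 - 1)) ||| F) ^^^ F)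
          (1 <<< (h / 262144 % 16384 + 1)) then
        rup G lim n (F ||| (1 <<< (Nat.xor (h / 262144 % 16384) (nat_lit 1) + 1)))
          (h / 4294967296)
      else false)
    else false := by
  change (force (Nat.mod h (nat_lit 262144)) fun i =>
      force (Nat.mod (Nat.div h (nat_lit 262144)) (nat_lit 16384)) fun j =>
      Bool.rec false
        (Bool.rec
          (Bool.rec false
            (force (Nat.div h (nat_lit 4294967296)) fun h' =>
              rup G lim n
                (Nat.lor F (Nat.shiftLeft (nat_lit 1) (Nat.succ (Nat.xor j (nat_lit 1))))) h')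
            (Nat.beq (Nat.xor (Nat.lor (mask 100 (G (Nat.sub i (nat_lit 1)))) F) F)
              (Nat.shiftLeft (nat_lit 1) (Nat.succ j))))
          true
          (Nat.beq (Nat.xor (Nat.lor (mask 100 (G (Nat.sub i (nat_lit 1)))) F) F) (nat_lit 0)))
        (Nat.ble (Nat.succ (Nat.sub i (nat_lit 1))) lim)) = _
  simp only [force_eq, rec_eq]
  rfl

theorem rup_sound (v : Nat → Prop) (G : Nat → Nat) (lim : Nat)
    (hG : ∀ i < lim, SatM v (mask 100 (G i))) :
    ∀ fuel F h, rup G lim fuel F h = true →
      (∀ j, F.testBit (j + 1) = true → ¬ litTrue v j) → False := by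
  intro fuel
  induction fuel with
  | zero => intro F h h1; exact absurd h1 (by simp [rup])
  | succ n ih =>
    intro F h h1 hF
    rw [rup_succ] at h1
    generalize h % 262144 = i at h1
    generalize h / 262144 % 16384 = j at h1
    generalize h / 4294967296 = h' at h1
    cases hb : Nat.ble (i - 1 + 1) lim with
    | false => rw [hb] at h1; exact absurd h1 (by simp)
    | true =>
      rw [hb, cond_true] at h1
      have hi1 : i - 1 + 1 ≤ lim := Nat.le_of_ble_eq_true hb
      obtain ⟨k, hk, hkt⟩ := hG (i - 1) (by omega)
      set D := mask 100 (G (i - 1)) with hD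
      set R := (D ||| F) ^^^ F with hR
      have hkF : F.testBit (k + 1) = false := by
        by_contra hc
        exact hF k (by simpa using hc) hkt
      have hRbit : ∀ i, R.testBit i = (D.testBit i && !F.testBit i) := by
        intro i
        have : R.testBit i = ((D ||| F) ^^^ F).testBit i := rfl
        rw [this, Nat.testBit_xor, Nat.testBit_or]
        cases D.testBit i <;> cases F.testBit i <;> rfl
      have hRk : R.testBit (k + 1) = true := by rw [hRbit, hk, hkF]; rfl
      cases hr : Nat.beq R 0 with
      | true =>
        have : R = 0 := Nat.eq_of_beq_eq_true hr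
        rw [this] at hRk
        simp at hRk
      | false =>
        rw [hr, cond_false] at h1
        cases hp : Nat.beq R (1 <<< (j + 1)) with
        | false => rw [hp] at h1; exact absurd h1 (by simp)
        | true =>
          rw [hp, cond_true] at h1
          have hp' : R = 1 <<< (j + 1) := Nat.eq_of_beq_eq_true hp
          have hlog : j = k := by
            rw [hp', testBit_one_shiftLeft'] at hRk
            simpa using hRk
          apply ih _ _ h1
          intro l hl
          rw [Nat.testBit_or, Bool.or_eq_true] at hl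
          rcases hl with h2 | h2
          · exact hF l h2
          · rw [testBit_one_shiftLeft'] at h2
            have h3 : Nat.xor j (nat_lit 1) = l := by simpa using h2
            rw [← h3, hlog, litTrue_neg, not_not]
            exact hkt

theorem chk_succ (G H : Nat → Nat) (n s : Nat) : chk G H (n + 1) s =
    bif rup G s 800 (1 ||| mask 100 (G s)) (H s) then chk G H n (s + 1) else false := by
  change @Bool.rec (fun _ => Bool) false (force (Nat.succ s) (chk G H n))
      (rup G s (nat_lit 800) (Nat.lor (nat_lit 1) (mask 100 (G s))) (H s)) = _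
  rw [rec_eq, force_eq]
  rfl

theorem chk_sound (v : Nat → Prop) (G H : Nat → Nat) :
    ∀ cnt s, chk G H cnt s = true → (∀ i < s, SatM v (mask 100 (G i))) →
      ∀ i < s + cnt, SatM v (mask 100 (G i)) := by
  intro cnt
  induction cnt with
  | zero => intro s _ h i hi; exact h i (by omega)
  | succ n ih =>
    intro s h1 h i hi
    rw [chk_succ] at h1
    cases hr : rup G s 800 (1 ||| mask 100 (G s)) (H s) with
    | false => rw [hr] at h1; exact absurd h1 (by simp)
    | true =>
      rw [hr, cond_true] at h1
      have hs : SatM v (mask 100 (G s)) := by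
        by_contra hc
        refine rup_sound v G s h 800 _ _ hr fun j hj hjt => hc ⟨j, ?_, hjt⟩
        have h1 : (1 : ℕ).testBit (j + 1) = false := by simp [Nat.testBit_succ]
        rw [Nat.testBit_or, h1, Bool.false_or] at hj
        exact hj
      exact ih (s + 1) h1 (fun i hi => by
        rcases Nat.lt_succ_iff_lt_or_eq.mp hi with h2 | h2
        · exact h i h2
        · rw [h2]; exact hs) i (by omega)

theorem no_sat_zero (v : Nat → Prop) (G : Nat → Nat) (i : Nat) (hi : G i = 0) :
    ¬ SatM v (mask 100 (G i)) := by
  rintro ⟨j, hj, _⟩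
  have : mask 100 (G i) = 0 := by rw [hi]; rfl
  rw [this] at hj
  simp at hj

/-! ### Axiom clauses -/

/-- codes of variables -/
structure VC where
  k : Nat
  a : Nat
  b : Nat
  c : Nat

/-- comparison -/
def VC.beq (x y : VC) : Bool :=
  Nat.beq x.k y.k && (Nat.beq x.a y.a && (Nat.beq x.b y.b && Nat.beq x.c y.c))

theorem VC.eq_of_beq {x y : VC} (h : VC.beq x y = true) : x = y := by
  simp only [VC.beq, Bool.and_eq_true] at h
  obtain ⟨h1, h2, h3, h4⟩ := h
  cases x; cases y
  simp only [VC.mk.injEq]
  exact ⟨Nat.eq_of_beq_eq_true h1, Nat.eq_of_beq_eq_true h2, Nat.eq_of_beq_eq_true h3,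
    Nat.eq_of_beq_eq_true h4⟩

/-- The digits of `c` are the codes of the given literals (sign, variable), in this order. -/
noncomputable def same (vt : Nat → VC) (l : List (Bool × VC)) : Nat → Bool :=
  List.rec (fun c => Nat.beq c 0)
    (fun p _ ih c => force (Nat.mod c 16384) fun m => cond (Nat.ble m 0) false
      (cond (Nat.beq (Nat.mod (Nat.sub m 1) 2) (cond p.1 0 1))
        (cond (VC.beq (vt (Nat.div (Nat.sub m 1) 2)) p.2) (force (Nat.div c 16384) ih) false)
        false)) l

theorem mask_succ (n c : Nat) : mask (n + 1) c =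
    bif Nat.beq c 0 then 0 else
      (((1 <<< (c % 16384)) ||| (1 <<< (c / 16384 % 16384))) |||
        ((1 <<< (c / 268435456 % 16384)) ||| (1 <<< (c / 4398046511104 % 16384)))) |||
        mask n (c / 72057594037927936) := rec_eq _ _ _

/-- the digits of `c` are marked -/
theorem mask_digit : ∀ (n c t : Nat), t < 4 * n → c / 16384 ^ t ≠ 0 →
    (mask n c).testBit (c / 16384 ^ t % 16384) = true := by
  intro n
  induction n with
  | zero => intro c t h; omega
  | succ n ih =>
    intro c t ht hc
    have hc0 : Nat.beq c 0 = false := by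
      cases hcc : Nat.beq c 0 with
      | false => rfl
      | true =>
        have := Nat.eq_of_beq_eq_true hcc
        subst this
        simp at hc
    rw [mask_succ, hc0, cond_false]
    simp only [Nat.testBit_or, testBit_one_shiftLeft']
    rcases Nat.lt_or_ge t 4 with h4 | h4
    · interval_cases t <;> simp
    · obtain ⟨u, rfl⟩ : ∃ u, t = 4 + u := ⟨t - 4, by omega⟩
      have h1 : c / 16384 ^ (4 + u) = c / 72057594037927936 / 16384 ^ u := by
        rw [pow_add, Nat.div_div_eq_div_mul]
        norm_num
      rw [h1] at hc ⊢
      rw [ih (c / 72057594037927936) u (by omega) hc]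
      simp

theorem same_digit (vt : Nat → VC) (l : List (Bool × VC)) :
    ∀ c : Nat, same vt l c = true → ∀ p ∈ l, ∃ t < l.length, ∃ k, c / 16384 ^ t % 16384 = k + 1 ∧
      k % 2 = cond p.1 0 1 ∧ vt (k / 2) = p.2 := by
  induction l with
  | nil => intro c _ p hp; simp at hp
  | cons q l ih =>
    intro c h p hp
    change (force (Nat.mod c 16384) fun m => cond (Nat.ble m 0) false
      (cond (Nat.beq (Nat.mod (Nat.sub m 1) 2) (cond q.1 0 1))
        (cond (VC.beq (vt (Nat.div (Nat.sub m 1) 2)) q.2) (force (Nat.div c 16384) (same vt l))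
          false) false)) = true at h
    simp only [force_eq] at h
    cases hb1 : Nat.ble (Nat.mod c 16384) 0 with
    | true => rw [hb1] at h; exact absurd h (by simp)
    | false =>
      rw [hb1, cond_false] at h
      cases hb2 : Nat.beq (Nat.mod (Nat.sub (Nat.mod c 16384) 1) 2) (cond q.1 0 1) with
      | false => rw [hb2] at h; exact absurd h (by simp)
      | true =>
      rw [hb2, cond_true] at h
      cases hb3 : VC.beq (vt (Nat.div (Nat.sub (Nat.mod c 16384) 1) 2)) q.2 with
      | false => rw [hb3] at h; exact absurd h (by simp)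
      | true =>
      rw [hb3, cond_true] at h
      have h1' : 0 < c % 16384 := by
        by_contra hc
        have : Nat.ble (Nat.mod c 16384) 0 = true :=
          Nat.ble_eq_true_of_le (by change c % 16384 ≤ 0; omega)
        rw [this] at hb1
        cases hb1
      have h2' : (c % 16384 - 1) % 2 = cond q.1 0 1 := Nat.eq_of_beq_eq_true hb2
      have h3' : vt ((c % 16384 - 1) / 2) = q.2 := VC.eq_of_beq hb3
      rcases List.mem_cons.mp hp with rfl | hp
      · exact ⟨0, by simp, c % 16384 - 1, by rw [pow_zero, Nat.div_one]; omega, h2', h3'⟩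
      · obtain ⟨t, ht, k, h4, h5, h6⟩ := ih (c / 16384) h p hp
        refine ⟨t + 1, by simpa using ht, k, ?_, h5, h6⟩
        rw [pow_succ', ← Nat.div_div_eq_div_mul]
        exact h4

theorem same_sound (vt : Nat → VC) (sem : VC → Prop) (l : List (Bool × VC)) :
    ∀ (c fuel : Nat), l.length ≤ fuel → same vt l c = true →
      (∃ p ∈ l, (p.1 = true ∧ sem p.2) ∨ (p.1 = false ∧ ¬ sem p.2)) →
      SatM (fun i => sem (vt i)) (mask fuel c) := by
  rintro c fuel hf h ⟨p, hp, hpt⟩
  obtain ⟨t, ht, k, h1, h2, h3⟩ := same_digit vt l c h p hp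
  refine ⟨k, ?_, ?_⟩
  · rw [← h1]
    refine mask_digit fuel c t (by omega) fun h0 => ?_
    rw [h0] at h1
    simp at h1
  · unfold litTrue
    rcases hpt with ⟨h4, h5⟩ | ⟨h4, h5⟩
    · left
      rw [h4] at h2
      exact ⟨h2, by simpa only [h3] using h5⟩
    · right
      rw [h4] at h2
      exact ⟨h2, by simpa only [h3] using h5⟩

end Pool.Agent.Gab7c_h87.Sat
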