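import Pool.Agent.Gab7c_h87.Ax

/-!
# Symmetry of configurations and the naming for the certificates
-/

set_option autoImplicit false

namespace Pool.Agent.Gab7c_h87

open Pool.Agent.Gabow87

section

variable {α : Type*} [DecidableEq α] {P : Finset α → Prop} {B B' : Finset α}

theorem LastE.symm {X V : Finset α} {e : α} (h : LastE P B B' X V e) : LastE P B' B V X e := by
  obtain ⟨hg, x, hx, v, hv, he, m, hm⟩ := h
  exact ⟨hg.symm, v, hv, x, hx, he.symm, m, GCh.symm _ _ _ hm⟩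

theorem PenE.symm {X V : Finset α} {e : α} (h : PenE P B B' X V e) : PenE P B' B V X e := by
  obtain ⟨hg, x, hx, v, hv, hl⟩ := h
  exact ⟨hg.symm, v, hv, x, hx, hl.symm⟩

theorem LastE.card {X V : Finset α} {e : α} (h : LastE P B B' X V e) : X.card = V.card := by
  obtain ⟨-, x, hx, v, hv, -, m, hm⟩ := h
  have h1 := gch_card _ _ _ hm
  rw [Finset.card_erase_of_mem hx, Finset.card_erase_of_mem hv] at h1
  have := Finset.card_pos.mpr ⟨x, hx⟩
  have := Finset.card_pos.mpr ⟨v, hv⟩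
  omega

theorem PenE.card {X V : Finset α} {e : α} (h : PenE P B B' X V e) : X.card = V.card := by
  obtain ⟨-, x, hx, v, hv, hl⟩ := h
  have h1 := hl.card
  rw [Finset.card_erase_of_mem hx, Finset.card_erase_of_mem hv] at h1
  have := Finset.card_pos.mpr ⟨x, hx⟩
  have := Finset.card_pos.mpr ⟨v, hv⟩
  omega

theorem Cfg.symm {k : ℕ} (h : Cfg k P B B') : Cfg k P B' B := by
  obtain ⟨X₁, hX1, V₁, hV1, X₂, hX2, V₂, hV2, e, c1, c2, hi, hl, hk⟩ := h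
  refine ⟨V₁, hV1, X₁, hX1, V₂, hV2, X₂, hX2, e, ?_, ?_, ?_, hl.symm, ?_⟩
  · rcases hk with ⟨-, hk⟩ | ⟨-, hk⟩ | ⟨-, m, hk⟩
    · rw [← hk.card, c1]
    · rw [← hk.card, c1]
    · rw [(gch_card _ _ _ hk).2, ← (gch_card _ _ _ hk).1, c1]
  · rw [← hl.card, c2]
  · rw [Finset.union_comm V₁, Finset.union_comm V₂, hi]
  · rcases hk with ⟨h1, hk⟩ | ⟨h1, hk⟩ | ⟨h1, m, hk⟩
    · exact Or.inl ⟨h1, hk.symm⟩
    · exact Or.inr (Or.inl ⟨h1, hk.symm⟩)
    · exact Or.inr (Or.inr ⟨h1, m, GCh.symm _ _ _ hk⟩)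

/-- no two disjoint chains with lengths in `hs` -/
def NoD (hs : List (ℕ × ℕ)) (P : Finset α → Prop) (B B' : Finset α) : Prop :=
  ∀ X ⊆ B, ∀ X' ⊆ B, ∀ V ⊆ B', ∀ V' ⊆ B', Disjoint X X' → Disjoint V V' →
    ∀ q ∈ hs, GCh P B B' q.1 X V → GCh P B B' q.2 X' V' → False

theorem NoD.symm {hs : List (ℕ × ℕ)} (h : NoD hs P B B') : NoD hs P B' B := by
  intro X hX X' hX' V hV V' hV' hXX hVV q hq h1 h2
  exact h V hV V' hV' X hX X' hX' hVV hXX q hq (GCh.symm _ _ _ h1) (GCh.symm _ _ _ h2)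

theorem sd {ρ : ℕ → α} (hinj : ∀ i < 14, ∀ j < 14, ρ i = ρ j → i = j) {S T : Finset ℕ}
    (hS : S ⊆ Finset.range 14) (hT : T ⊆ Finset.range 14) :
    S.image ρ \ T.image ρ = (S \ T).image ρ := by
  ext t
  simp only [Finset.mem_sdiff, Finset.mem_image]
  constructor
  · rintro ⟨⟨n, hn, rfl⟩, h⟩
    exact ⟨n, ⟨hn, fun hnT => h ⟨n, hnT, rfl⟩⟩, rfl⟩
  · rintro ⟨n, ⟨hn, hnT⟩, rfl⟩
    refine ⟨⟨n, hn, rfl⟩, ?_⟩
    rintro ⟨n', hn', h⟩
    have := hinj n' (Finset.mem_range.mp (hT hn')) n (Finset.mem_range.mp (hS hn)) h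
    exact hnT (this ▸ hn')

theorem good_im {ρ : ℕ → α} (hinj : ∀ i < 14, ∀ j < 14, ρ i = ρ j → i = j)
    (hB : (Finset.range 7).image ρ = B) (hB' : (Finset.Ico 7 14).image ρ = B')
    (I J : Finset ℕ) (hI : I ⊆ Finset.range 14) (hJ : J ⊆ Finset.range 14)
    (h : Good P B B' (I.image ρ) (J.image ρ)) :
    P (((Finset.range 7 \ I) ∪ J).image ρ) ∧ P (((Finset.Ico 7 14 \ J) ∪ I).image ρ) := by
  obtain ⟨h1, h2⟩ := h
  rw [← hB, sd hinj (by decide) hI, ← Finset.image_union] at h1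
  rw [← hB', sd hinj (by decide) hJ, ← Finset.image_union] at h2
  exact ⟨h1, h2⟩

end

end Pool.Agent.Gab7c_h87
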